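import Pool.Agent.Y92.RS.Charts

/-!
# The variation over a punctured compact Riemann surface, and the global dichotomy
-/

namespace Pool.Agent.Y92.RS

open Filter Asymptotics Finset Metric Set
open scoped Topology ComplexConjugate

/-- the point with local parameter `u` in the preferred chart centred at `p` -/
noncomputable def pt {X : Type*} [TopologicalSpace X] [ChartedSpace ℂ X] (p : X) (u : ℂ) : X :=
  (chartAt ℂ p).symm (chartAt ℂ p p + u)

/-- `(Z, ν)` is the value at `x` of one branch of the period map. -/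
def HasPeriod {g n : ℕ} {X : Type*} [TopologicalSpace X] [ChartedSpace ℂ X] (D : Set X)
    (disc : X → DiscChart g n) (cusp : X → CuspChart g n)
    (x : X) (Z : Matrix (Fin g) (Fin g) ℂ) (ν : TVec g n) : Prop :=
  (∃ p ∉ D, ∃ u ∈ ball (0 : ℂ) (disc p).r, pt p u = x ∧ (disc p).Z u = Z ∧ (disc p).ν u = ν) ∨
  (∃ p ∈ D, ∃ z : ℂ, qq z ∈ ball (0 : ℂ) (cusp p).r ∧ pt p ((qq z) ^ (cusp p).e) = x ∧
    (fun b a => z * (((cusp p).N b a : ℚ) : ℂ) + (cusp p).Z₀ (qq z) b a) = Z ∧ (cusp p).ν z = ν)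

/-- Two pairs `(Z, ν)`, `(Z', ν')` define isomorphic mixed Hodge structures by a change of the
rational basis: `γ ∈ GL_{2g}(ℚ)` carries `F¹(Z)` into `F¹(Z')`, and `ν' = γ^{⊗ n} ν + w` with
`w` rational. -/
def Related {g n : ℕ} (Z : Matrix (Fin g) (Fin g) ℂ) (ν : TVec g n)
    (Z' : Matrix (Fin g) (Fin g) ℂ) (ν' : TVec g n) : Prop :=
  ∃ γ : Matrix (Lab g) (Lab g) ℚ, γ.det ≠ 0 ∧
    (∀ j, (γ.map (fun t : ℚ => (t : ℂ))).mulVec (omega Z j) ∈
      Submodule.span ℂ (Set.range (omega Z'))) ∧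
    ∃ w : (Fin n → Lab g) → ℚ,
      ν' = tact (γ.map (fun t : ℚ => (t : ℂ))) ν + fun I => ((w I : ℚ) : ℂ)

/-- An admissible variation of mixed Hodge structure `V` over `X ∖ D`, extension of `ℚ(0)` by
`(H¹)^{⊗ n}(n+1)` with `H¹` a polarized variation of Hodge structure of weight one and
rank `2g`, given by its local period data. -/
structure Variation (g n : ℕ) (X : Type*) [TopologicalSpace X] [ChartedSpace ℂ X]
    (D : Set X) where
  /-- period data at the points of `X ∖ D` -/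
  disc : X → DiscChart g n
  /-- period data at the points of `D` -/
  cusp : X → CuspChart g n
  disc_dom : ∀ p ∉ D, ∀ u ∈ ball (0 : ℂ) (disc p).r,
    chartAt ℂ p p + u ∈ (chartAt ℂ p).target ∧ pt p u ∉ D
  cusp_dom : ∀ p ∈ D, ∀ s ∈ ball (0 : ℂ) (cusp p).r,
    chartAt ℂ p p + s ^ (cusp p).e ∈ (chartAt ℂ p).target ∧
      (s ≠ 0 → pt p (s ^ (cusp p).e) ∉ D)
  compat : ∀ x Z ν Z' ν', HasPeriod D disc cusp x Z ν → HasPeriod D disc cusp x Z' ν' →
    Related Z ν Z' ν'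

theorem finite_or_all {X : Type*} [TopologicalSpace X] [CompactSpace X] [PreconnectedSpace X]
    [T1Space X] {D S : Set X} (hdense : Dense Dᶜ)
    (hloc : ∀ p, ∃ U ∈ 𝓝 p, (∀ x ∈ U, x ≠ p → x ∉ S) ∨ (∀ x ∈ U, x ∉ D → x ∈ S)) :
    S.Finite ∨ ∀ x ∉ D, x ∈ S := by
  set A : Set X := {p | ∃ U ∈ 𝓝 p, ∀ x ∈ U, x ∉ D → x ∈ S} with hA
  have hAo : IsOpen A := by
    rw [isOpen_iff_mem_nhds]
    rintro p ⟨U, hU, hU2⟩
    have h1 : ∀ᶠ y in 𝓝 p, U ∈ 𝓝 y := eventually_mem_nhds_iff.mpr hU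
    filter_upwards [h1] with y hy
    exact ⟨U, hy, hU2⟩
  have hAc : IsOpen Aᶜ := by
    rw [isOpen_iff_mem_nhds]
    intro p hp
    obtain ⟨U, hU, h | h⟩ := hloc p
    · have h1 : ∀ᶠ y in 𝓝 p, U ∈ 𝓝 y := eventually_mem_nhds_iff.mpr hU
      filter_upwards [h1] with y hy
      rintro ⟨U', hU', hU'2⟩
      by_cases hyp : y = p
      · rw [hyp] at hU'
        exact hp ⟨U', hU', hU'2⟩
      · have h2 : U ∩ U' ∩ {p}ᶜ ∈ 𝓝 y :=
          Filter.inter_mem (Filter.inter_mem hy hU') (isOpen_compl_singleton.mem_nhds hyp)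
        obtain ⟨x, hxD, hx⟩ := hdense.inter_nhds_nonempty h2
        exact h x hx.1.1 hx.2 (hU'2 x hx.1.2 hxD)
    · exact absurd ⟨U, hU, h⟩ hp
  rcases isClopen_iff.mp ⟨isOpen_compl_iff.mp hAc, hAo⟩ with h | h
  · left
    have h2 : ∀ p, ∃ U ∈ 𝓝 p, ∀ x ∈ U, x ≠ p → x ∉ S := by
      intro p
      obtain ⟨U, hU, h3 | h3⟩ := hloc p
      · exact ⟨U, hU, h3⟩
      · have : p ∈ A := ⟨U, hU, h3⟩
        rw [h] at this
        exact absurd this (Set.notMem_empty p)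
    choose U hU hU2 using h2
    obtain ⟨t, -, ht⟩ := (isCompact_univ (X := X)).elim_nhds_subcover U (fun x _ => hU x)
    refine t.finite_toSet.subset fun x hx => ?_
    have h4 := ht (Set.mem_univ x)
    rw [Set.mem_iUnion₂] at h4
    obtain ⟨p, hp, hxp⟩ := h4
    by_cases hxe : x = p
    · rw [hxe]; exact hp
    · exact absurd hx (hU2 p x hxp hxe)
  · right
    intro x hx
    have : x ∈ A := by rw [h]; trivial
    obtain ⟨U, hU, hU2⟩ := this
    exact hU2 x (mem_of_mem_nhds hU) hx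

section

variable {X : Type*} [TopologicalSpace X] [ChartedSpace ℂ X]

/-- nearby points have small parameters -/
theorem nhds_pt (p : X) {ε : ℝ} (hε : 0 < ε) :
    ∃ U ∈ 𝓝 p, ∀ x ∈ U, ∃ u : ℂ, ‖u‖ < ε ∧ pt p u = x ∧ (x ≠ p → u ≠ 0) := by
  have h1 : ∀ᶠ x in 𝓝 p, x ∈ (chartAt ℂ p).source := chart_source_mem_nhds ℂ p
  have h2 : ∀ᶠ x in 𝓝 p, chartAt ℂ p x ∈ ball (chartAt ℂ p p) ε :=
    ((chartAt ℂ p).continuousAt (mem_chart_source ℂ p)).eventually_mem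
      (isOpen_ball.mem_nhds (mem_ball_self hε))
  refine ⟨_, h1.and h2, fun x hx => ⟨chartAt ℂ p x - chartAt ℂ p p, ?_, ?_, ?_⟩⟩
  · have := hx.2
    rwa [mem_ball_iff_norm] at this
  · unfold pt
    rw [add_sub_cancel]
    exact (chartAt ℂ p).left_inv hx.1
  · intro hne h0
    apply hne
    have h3 := sub_eq_zero.mp h0
    exact (chartAt ℂ p).injOn hx.1 (mem_chart_source ℂ p) h3

theorem pt_zero (p : X) : pt p 0 = p := by
  unfold pt
  rw [add_zero]
  exact (chartAt ℂ p).left_inv (mem_chart_source ℂ p)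

theorem tendsto_pt (p : X) : Tendsto (pt p) (𝓝 0) (𝓝 p) := by
  have h1 : ContinuousAt (chartAt ℂ p).symm (chartAt ℂ p p + 0) := by
    rw [add_zero]
    exact (chartAt ℂ p).continuousAt_symm (mem_chart_target ℂ p)
  have h2 : ContinuousAt (fun u : ℂ => chartAt ℂ p p + u) 0 := by fun_prop
  have h3 : ContinuousAt (pt p) 0 := ContinuousAt.comp (g := (chartAt ℂ p).symm) h1 h2
  have h4 := h3.tendsto
  rwa [pt_zero] at h4

variable {g n : ℕ} {D : Set X}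

theorem Variation.dense (V : Variation g n X D) : Dense Dᶜ := by
  intro p
  by_cases hp : p ∈ D
  · rw [mem_closure_iff_nhds]
    intro U hU
    have h1 : Tendsto (fun s : ℂ => pt p (s ^ (V.cusp p).e)) (𝓝 0) (𝓝 p) := by
      refine (tendsto_pt p).comp ?_
      have : Tendsto (fun s : ℂ => s ^ (V.cusp p).e) (𝓝 0) (𝓝 (0 ^ (V.cusp p).e)) :=
        (continuous_pow _).tendsto 0
      rwa [zero_pow (V.cusp p).e_pos.ne'] at this
    have h2 : ∀ᶠ s in 𝓝[≠] (0 : ℂ), pt p (s ^ (V.cusp p).e) ∈ U := nhdsWithin_le_nhds (h1 hU)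
    have h3 : ∀ᶠ s in 𝓝[≠] (0 : ℂ), s ∈ ball (0 : ℂ) (V.cusp p).r :=
      nhdsWithin_le_nhds (isOpen_ball.mem_nhds (mem_ball_self (V.cusp p).r_pos))
    obtain ⟨s, ⟨hs1, hs2⟩, hs3⟩ := ((h2.and h3).and self_mem_nhdsWithin).exists
    exact ⟨_, hs1, (V.cusp_dom p hp s hs2).2 hs3⟩
  · exact subset_closure hp

/-- the set of points where some branch of the extension class satisfies `P` -/
def Variation.locus (V : Variation g n X D) (P : TVec g n → Prop) : Set X :=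
  {x | x ∉ D ∧ ∃ Z ν, HasPeriod D V.disc V.cusp x Z ν ∧ P ν}

theorem Variation.mem_locus_iff (V : Variation g n X D) {P : TVec g n → Prop}
    (hP : ∀ Z ν Z' ν', Related Z ν Z' ν' → P ν → P ν') {x : X} (hx : x ∉ D)
    {Z : Matrix (Fin g) (Fin g) ℂ} {ν : TVec g n} (h : HasPeriod D V.disc V.cusp x Z ν) :
    x ∈ V.locus P ↔ P ν := by
  constructor
  · rintro ⟨-, Z', ν', h', hP'⟩
    exact hP _ _ _ _ (V.compat x Z' ν' Z ν h' h) hP'
  · intro hPν
    exact ⟨hx, Z, ν, h, hPν⟩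

end

theorem Variation.local_dichotomy {X : Type*} [TopologicalSpace X] [ChartedSpace ℂ X]
    {g n : ℕ} {D : Set X} (V : Variation g (n + 1) X D)
    {P : TVec g (n + 1) → Prop} (hP : ∀ Z ν Z' ν', Related Z ν Z' ν' → P ν → P ν')
    (hPre : ∀ ν, P ν → ∀ I, (ν I).im = 0) (p : X) :
    ∃ U ∈ 𝓝 p, (∀ x ∈ U, x ≠ p → x ∉ V.locus P) ∨ (∀ x ∈ U, x ∉ D → x ∈ V.locus P) := by
  by_cases hp : p ∈ D
  · -- a puncture
    have key : ∀ y₁ : ℝ, ∃ U ∈ 𝓝 p, ∀ x ∈ U, x ≠ p → x ∉ D ∧ ∃ z : ℂ, y₁ < z.im ∧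
        HasPeriod D V.disc V.cusp x
          (fun b a => z * (((V.cusp p).N b a : ℚ) : ℂ) + (V.cusp p).Z₀ (qq z) b a)
          ((V.cusp p).ν z) := by
      intro y₁
      set ε : ℝ := min (V.cusp p).r (Real.exp (-(2 * Real.pi * y₁))) with hε
      have hε0 : 0 < ε := lt_min (V.cusp p).r_pos (Real.exp_pos _)
      obtain ⟨U, hU, hU2⟩ := nhds_pt p (pow_pos hε0 (V.cusp p).e)
      refine ⟨U, hU, fun x hx hxp => ?_⟩
      obtain ⟨u, hu, hux, hu0⟩ := hU2 x hx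
      obtain ⟨s, hs⟩ : ∃ s : ℂ, s ^ (V.cusp p).e = u :=
        IsAlgClosed.exists_pow_nat_eq u (V.cusp p).e_pos
      have hs0 : s ≠ 0 := by
        intro h
        apply hu0 hxp
        rw [← hs, h, zero_pow (V.cusp p).e_pos.ne']
      have hsn : ‖s‖ < ε := by
        rw [← hs, norm_pow] at hu
        exact lt_of_pow_lt_pow_left₀ _ hε0.le hu
      obtain ⟨z, hz⟩ := exists_qq hs0
      have hsr : s ∈ ball (0 : ℂ) (V.cusp p).r := by
        rw [mem_ball_zero_iff]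
        exact lt_of_lt_of_le hsn (min_le_left _ _)
      refine ⟨?_, z, ?_, ?_⟩
      · rw [← hux, ← hs]
        exact (V.cusp_dom p hp s hsr).2 hs0
      · apply im_lt_of_norm_qq
        rw [hz]
        exact lt_of_lt_of_le hsn (min_le_right _ _)
      · right
        exact ⟨p, hp, z, by rw [hz]; exact hsr, by rw [hz, hs, hux], rfl, rfl⟩
    rcases (V.cusp p).dichotomy with ⟨y₁, hy⟩ | ⟨y₁, v₀, hy⟩
    · obtain ⟨U, hU, hU2⟩ := key y₁
      refine ⟨U, hU, Or.inl fun x hx hxp hmem => ?_⟩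
      obtain ⟨hxD, z, hz, hper⟩ := hU2 x hx hxp
      exact hy z hz (hPre _ ((V.mem_locus_iff hP hxD hper).mp hmem))
    · obtain ⟨U, hU, hU2⟩ := key y₁
      by_cases hPv : P v₀
      · refine ⟨U, hU, Or.inr fun x hx hxD => ?_⟩
        have hxp : x ≠ p := fun h => hxD (h ▸ hp)
        obtain ⟨_, z, hz, hper⟩ := hU2 x hx hxp
        rw [V.mem_locus_iff hP hxD hper, hy z hz]
        exact hPv
      · refine ⟨U, hU, Or.inl fun x hx hxp hmem => ?_⟩
        obtain ⟨hxD, z, hz, hper⟩ := hU2 x hx hxp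
        rw [V.mem_locus_iff hP hxD hper, hy z hz] at hmem
        exact hPv hmem
  · -- an interior point
    have key : ∀ ε > 0, ε ≤ (V.disc p).r → ∃ U ∈ 𝓝 p, ∀ x ∈ U, x ∉ D ∧ ∃ u : ℂ, ‖u‖ < ε ∧
        (x ≠ p → u ≠ 0) ∧
        HasPeriod D V.disc V.cusp x ((V.disc p).Z u) ((V.disc p).ν u) := by
      intro ε hε hεr
      obtain ⟨U, hU, hU2⟩ := nhds_pt p hε
      refine ⟨U, hU, fun x hx => ?_⟩
      obtain ⟨u, hu, hux, hu0⟩ := hU2 x hx
      have hur : u ∈ ball (0 : ℂ) (V.disc p).r := by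
        rw [mem_ball_zero_iff]
        exact lt_of_lt_of_le hu hεr
      refine ⟨?_, u, hu, hu0, ?_⟩
      · rw [← hux]
        exact (V.disc_dom p hp u hur).2
      · left
        exact ⟨p, hp, u, hur, hux, rfl, rfl⟩
    rcases (V.disc p).dichotomy with ⟨ε, hε, hεr, hy⟩ | ⟨ε, hε, hεr, v₀, hy⟩
    · obtain ⟨U, hU, hU2⟩ := key ε hε hεr
      refine ⟨U, hU, Or.inl fun x hx hxp hmem => ?_⟩
      obtain ⟨hxD, u, hu, hu0, hper⟩ := hU2 x hx
      exact hy u (hu0 hxp) hu (hPre _ ((V.mem_locus_iff hP hxD hper).mp hmem))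
    · obtain ⟨U, hU, hU2⟩ := key ε hε hεr
      by_cases hPv : P v₀
      · refine ⟨U, hU, Or.inr fun x hx hxD => ?_⟩
        obtain ⟨_, u, hu, _, hper⟩ := hU2 x hx
        rw [V.mem_locus_iff hP hxD hper, hy u hu]
        exact hPv
      · refine ⟨U, hU, Or.inl fun x hx hxp hmem => ?_⟩
        obtain ⟨hxD, u, hu, _, hper⟩ := hU2 x hx
        rw [V.mem_locus_iff hP hxD hper, hy u hu] at hmem
        exact hPv hmem

/-- **Global dichotomy.** -/
theorem Variation.locus_finite_or_all {X : Type*} [TopologicalSpace X] [ChartedSpace ℂ X]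
    [CompactSpace X] [PreconnectedSpace X] [T1Space X]
    {g n : ℕ} {D : Set X} (V : Variation g (n + 1) X D)
    {P : TVec g (n + 1) → Prop} (hP : ∀ Z ν Z' ν', Related Z ν Z' ν' → P ν → P ν')
    (hPre : ∀ ν, P ν → ∀ I, (ν I).im = 0) :
    (V.locus P).Finite ∨ ∀ x ∉ D, x ∈ V.locus P :=
  finite_or_all V.dense (V.local_dichotomy hP hPre)

theorem related_real {g n : ℕ} {Z : Matrix (Fin g) (Fin g) ℂ} {ν : TVec g n}
    {Z' : Matrix (Fin g) (Fin g) ℂ} {ν' : TVec g n} (h : Related Z ν Z' ν')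
    (hν : ∀ I, ∃ t : ℝ, ν I = t) : ∀ I, ∃ t : ℝ, ν' I = t := by
  obtain ⟨γ, -, -, w, rfl⟩ := h
  choose t ht using hν
  intro I
  refine ⟨(∑ I' : Fin n → Lab g, (∏ k, ((γ (I k) (I' k) : ℚ) : ℝ)) * t I') + ((w I : ℚ) : ℝ), ?_⟩
  simp only [Pi.add_apply, tact, Matrix.map_apply, ht]
  push_cast
  rfl

theorem related_rat {g n : ℕ} {Z : Matrix (Fin g) (Fin g) ℂ} {ν : TVec g n}
    {Z' : Matrix (Fin g) (Fin g) ℂ} {ν' : TVec g n} (h : Related Z ν Z' ν')
    (hν : ∀ I, ∃ t : ℚ, ν I = t) : ∀ I, ∃ t : ℚ, ν' I = t := by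
  obtain ⟨γ, -, -, w, rfl⟩ := h
  choose t ht using hν
  intro I
  refine ⟨(∑ I' : Fin n → Lab g, (∏ k, γ (I k) (I' k)) * t I') + w I, ?_⟩
  simp only [Pi.add_apply, tact, Matrix.map_apply, ht]
  push_cast
  rfl

end Pool.Agent.Y92.RS
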