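import Pool.Agent.Y92.RS.CuspMain

/-!
# Real points of a period integral near a cusp: final local statement
-/

namespace Pool.Agent.Y92.RS

open Filter Asymptotics Finset Metric
open scoped Topology ComplexConjugate Nat

variable {E : Type*} [NormedAddCommGroup E] [NormedSpace ℂ E] [CompleteSpace E] {κ : Type*}
  {x : κ → E →L[ℂ] ℂ}

theorem exists_resolvent {N : E →L[ℂ] E} {K : ℕ} (hK : N ^ K = 0) {l : ℂ} (hl : l ≠ 0) (v : E) :
    ∃ g : E, l • g + N g = v := by
  set M : E →L[ℂ] E := -(l⁻¹ • N) with hM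
  have hMK : M ^ K = 0 := by rw [hM, neg_pow, smul_pow, hK, smul_zero, mul_zero]
  have h1 : (1 - M) * ∑ i ∈ range K, M ^ i = 1 := by rw [mul_neg_geom_sum, hMK, sub_zero]
  refine ⟨l⁻¹ • (∑ i ∈ range K, M ^ i) v, ?_⟩
  have h2 : ((1 - M) * ∑ i ∈ range K, M ^ i) v = v := by rw [h1]; simp
  have h3 : ((1 - M) * ∑ i ∈ range K, M ^ i) v = (∑ i ∈ range K, M ^ i) v
      + l⁻¹ • N ((∑ i ∈ range K, M ^ i) v) := by
    generalize (∑ i ∈ range K, M ^ i) = S
    rw [ContinuousLinearMap.mul_apply, hM]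
    simp
  rw [smul_smul, mul_inv_cancel₀ hl, one_smul, map_smul, ← h3, h2]

theorem good_of_differentiableOn {ρ : ℝ} (hρ : 0 < ρ) {ψ : ℂ → E}
    (hψ : DifferentiableOn ℂ ψ (ball 0 ρ)) (m : ℕ) :
    Good (ρ / 2) (m + 1) (fun q => q ^ m • (ψ q - ψ 0)) := by
  have hsub : ball (0 : ℂ) (ρ / 2) ⊆ ball 0 ρ := ball_subset_ball (by linarith)
  have hsub2 : closedBall (0 : ℂ) (ρ / 2) ⊆ ball 0 ρ := closedBall_subset_ball (by linarith)
  refine ⟨?_, ?_⟩
  · exact (differentiableOn_id.pow m).smul ((hψ.mono hsub).sub_const _)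
  · have hds : DifferentiableOn ℂ (dslope ψ 0) (ball 0 ρ) :=
      (Complex.differentiableOn_dslope (isOpen_ball.mem_nhds (mem_ball_self hρ))).mpr hψ
    obtain ⟨C, hC⟩ := (isCompact_closedBall (0 : ℂ) (ρ / 2)).exists_bound_of_continuousOn
      (hds.continuousOn.mono hsub2)
    refine ⟨max C 0, le_max_right _ _, fun q hq => ?_⟩
    have h1 : q • dslope ψ 0 q = ψ q - ψ 0 := by
      have := sub_smul_dslope ψ 0 q
      rwa [sub_zero] at this
    calc ‖q ^ m • (ψ q - ψ 0)‖ = ‖q‖ ^ m * (‖q‖ * ‖dslope ψ 0 q‖) := by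
          rw [← h1, norm_smul, norm_smul, norm_pow]
      _ ≤ ‖q‖ ^ m * (‖q‖ * max C 0) := by
          gcongr
          exact (hC q (ball_subset_closedBall hq)).trans (le_max_left _ _)
      _ = max C 0 * ‖q‖ ^ (m + 1) := by rw [pow_succ]; ring

/-- **Real points near a cusp.**  Let `ν' = exp (z N) (q ^ m ψ(q))` with `ψ` holomorphic at `0`,
`N` real and nilpotent, with real monodromy.  If `ψ(0)` is not a complex multiple of a real
vector killed by `N`, then `ν(z)` is not real for `Im z` large. -/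
theorem cusp_nonreal (hx : ∀ v, (∀ k, x k v = 0) → v = 0)
    {N : E →L[ℂ] E} (hN : RealOp x N) {K : ℕ} (hK : N ^ K = 0)
    {c ρ : ℝ} (hρ : 0 < ρ) {ψ : ℂ → E} (hψ : DifferentiableOn ℂ ψ (ball 0 ρ)) (m : ℕ)
    {ν : ℂ → E}
    (hν : ∀ z : ℂ, c < z.im → HasDerivAt ν (ex N z ((qq z) ^ m • ψ (qq z))) z)
    (hmon : ∀ z : ℂ, c < z.im → IsRe x (ν (z + 1) - ex N 1 (ν z)))
    (hlim : ∀ r, IsRe x r → N r = 0 → ∀ b : ℂ, ψ 0 ≠ b • r) :
    ∃ y₁ : ℝ, ∀ z : ℂ, y₁ < z.im → ¬ IsRe x (ν z) := by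
  have hK' : N ^ (K + 1) = 0 := by rw [pow_succ, hK, zero_mul]
  have hρ2 : 0 < ρ / 2 := by linarith
  obtain ⟨Φ, Φ', hΦ, hΦd, hΦe⟩ := exists_solve hρ2 (Nat.succ_le_succ (Nat.zero_le m)) hK'
    (good_of_differentiableOn hρ hψ m)
  obtain ⟨c', hcc', hc'⟩ := exists_exp_le hρ2 c
  rcases Nat.eq_zero_or_pos m with hm | hm
  · subst hm
    have hder : ∀ z : ℂ, c' < z.im → HasDerivAt
        (fun z => ν z - ex N z (Φ (qq z)) - tz N (K + 1) z (ψ 0)) 0 z := by
      intro z hz
      have hq := norm_qq_lt hc' hz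
      have h1 := hν z (lt_of_le_of_lt hcc' hz)
      have h2 := hasDerivAt_ex_comp N (hΦd _ hq)
      have h3 : HasDerivAt (fun ζ : ℂ => tz N (K + 1) ζ (ψ 0)) (ex N z (ψ 0)) z := by
        have := (hasDerivAt_tz hK' z).clm_apply (hasDerivAt_const _ (ψ 0))
        simpa using this
      refine ((h1.sub h2).sub h3).congr_deriv ?_
      rw [hΦe _ hq, ← map_sub, ← map_sub]
      simp
    obtain ⟨a, ha⟩ := const_on_halfPlane hder
    refine cusp_zero hx hN hK' (Nat.succ_ne_zero K) hc' hΦ (ψ 0) a ?_ ?_ hlim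
    · intro z hz
      have := ha z hz
      rw [← this]
      abel
    · exact fun z hz => hmon z (lt_of_le_of_lt hcc' hz)
  · have hl : (2 * Real.pi * Complex.I * m : ℂ) ≠ 0 := by
      have : (m : ℂ) ≠ 0 := by exact_mod_cast hm.ne'
      exact mul_ne_zero Complex.two_pi_I_ne_zero this
    obtain ⟨g, hg⟩ := exists_resolvent hK' hl (ψ 0)
    have hder : ∀ z : ℂ, c' < z.im → HasDerivAt
        (fun z => ν z - ex N z ((qq z) ^ m • g + Φ (qq z))) 0 z := by
      intro z hz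
      have hq := norm_qq_lt hc' hz
      have h1 := hν z (lt_of_le_of_lt hcc' hz)
      have h4 : HasDerivAt (fun q : ℂ => q ^ m • g + Φ q)
          (((m : ℂ) * (qq z) ^ (m - 1)) • g + Φ' (qq z)) (qq z) :=
        ((hasDerivAt_pow m (qq z)).smul_const g).add (hΦd _ hq)
      have h2 := hasDerivAt_ex_comp N h4
      refine (h1.sub h2).congr_deriv ?_
      have h5 : (2 * Real.pi * Complex.I * qq z) • (((m : ℂ) * (qq z) ^ (m - 1)) • g + Φ' (qq z))
          + N ((qq z) ^ m • g + Φ (qq z)) = (qq z) ^ m • ψ (qq z) := by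
        have h6 := hΦe _ hq
        have h7 : (2 * Real.pi * Complex.I * qq z) * ((m : ℂ) * (qq z) ^ (m - 1))
            = (qq z) ^ m * (2 * Real.pi * Complex.I * m) := by
          obtain ⟨n, rfl⟩ : ∃ n, m = n + 1 := ⟨m - 1, by omega⟩
          rw [Nat.add_sub_cancel, pow_succ]
          ring
        rw [smul_add, smul_smul, h7, map_add, map_smul, mul_smul]
        calc (qq z) ^ m • (2 * Real.pi * Complex.I * m : ℂ) • g
              + (2 * Real.pi * Complex.I * qq z) • Φ' (qq z)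
              + ((qq z) ^ m • N g + N (Φ (qq z)))
            = (qq z) ^ m • ((2 * Real.pi * Complex.I * m : ℂ) • g + N g)
              + ((2 * Real.pi * Complex.I * qq z) • Φ' (qq z) + N (Φ (qq z))) := by
              rw [smul_add]; abel
          _ = (qq z) ^ m • ψ (qq z) := by
              rw [hg, h6, ← smul_add]
              congr 1
              abel
      rw [h5, sub_self]
    obtain ⟨a, ha⟩ := const_on_halfPlane hder
    refine cusp_pos hx hN hK' (Nat.succ_ne_zero K) hc' hm hΦ g a ?_ ?_ ?_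
    · intro z hz
      have := ha z hz
      rw [← this]
      abel
    · exact fun z hz => hmon z (lt_of_le_of_lt hcc' hz)
    · intro r hr hNr b hgb
      refine hlim r hr hNr ((2 * Real.pi * Complex.I * m : ℂ) * b) ?_
      rw [← hg, hgb, map_smul, hNr, smul_zero, add_zero, smul_smul]

end Pool.Agent.Y92.RS
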