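import Pool.Agent.Y92.RS.Pair

/-!
# Interior points, and positivity of the limit
-/

namespace Pool.Agent.Y92.RS

open Filter Asymptotics Finset Metric
open scoped Topology ComplexConjugate Nat

theorem exists_qq {u : ℂ} (hu : u ≠ 0) : ∃ z, qq z = u := by
  refine ⟨Complex.log u / (2 * Real.pi * Complex.I), ?_⟩
  unfold qq
  rw [mul_div_cancel₀ _ Complex.two_pi_I_ne_zero, Complex.exp_log hu]

theorem im_lt_of_norm_qq {z : ℂ} {y : ℝ} (h : ‖qq z‖ < Real.exp (-(2 * Real.pi * y))) :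
    y < z.im := by
  rw [norm_qq, Real.exp_lt_exp] at h
  have := Real.pi_pos
  nlinarith

/-- **Real points near an interior point, weight one.** -/
theorem pair_disc {g : ℕ} {ρ : ℝ} (hρ : 0 < ρ)
    (Z : ℂ → Matrix (Fin g) (Fin g) ℂ)
    (hZ : ∀ a b, DifferentiableOn ℂ (fun q => Z q a b) (ball 0 ρ))
    (p : ℂ → Fin g → ℂ) (hp : DifferentiableOn ℂ p (ball 0 ρ)) (hp0 : ¬ ∀ᶠ q in 𝓝 0, p q = 0)
    (μ : ℂ → Fin g ⊕ Fin g → ℂ)
    (hμ : ∀ u ∈ ball (0 : ℂ) ρ, HasDerivAt μ (Sum.elim (p u) (fun b => ∑ a, Z u b a * p u a)) u)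
    (hpos : ∀ r : Fin g → ℝ, (∀ b, ∑ a, (Z 0 b a).im * r a = 0) → r = 0) :
    ∃ ε > 0, ∀ u : ℂ, u ≠ 0 → ‖u‖ < ε → ¬ ∀ k, (μ u k).im = 0 := by
  have hv : DifferentiableOn ℂ (fun q : ℂ => (2 * Real.pi * Complex.I * q) • p q) (ball 0 ρ) := by
    have h1 : DifferentiableOn ℂ (fun q : ℂ => (2 * Real.pi * Complex.I : ℂ) * q) (ball 0 ρ) :=
      differentiableOn_id.const_mul _
    exact h1.smul hp
  have hv0 : ¬ ∀ᶠ q in 𝓝 (0 : ℂ), (2 * Real.pi * Complex.I * q) • p q = 0 := by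
    intro h
    apply hp0
    have hpa : AnalyticAt ℂ p 0 := hp.analyticAt (isOpen_ball.mem_nhds (mem_ball_self hρ))
    apply hpa.frequently_zero_iff_eventually_zero.mp
    apply Eventually.frequently
    have h1 : ∀ᶠ q in 𝓝[≠] (0 : ℂ), (2 * Real.pi * Complex.I * q) • p q = 0 :=
      nhdsWithin_le_nhds h
    filter_upwards [h1, self_mem_nhdsWithin] with q hq hq0
    rcases smul_eq_zero.mp hq with h2 | h2
    · exact absurd h2 (mul_ne_zero Complex.two_pi_I_ne_zero hq0)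
    · exact h2
  have hder : ∀ z, qq z ∈ ball (0 : ℂ) ρ → HasDerivAt (fun z => μ (qq z))
      (Sum.elim ((2 * Real.pi * Complex.I * qq z) • p (qq z))
      (fun b => ∑ a, (z * (((0 : Matrix (Fin g) (Fin g) ℝ) b a : ℝ) : ℂ) + Z (qq z) b a) *
        ((2 * Real.pi * Complex.I * qq z) • p (qq z)) a)) z := by
    intro z hz
    refine ((hμ _ hz).scomp z (hasDerivAt_qq z)).congr_deriv ?_
    ext k
    rcases k with k | k
    · simp
    · simp only [Pi.smul_apply, Sum.elim_inr, smul_eq_mul, Matrix.zero_apply, Complex.ofReal_zero,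
        mul_zero, zero_add, Finset.mul_sum]
      exact Finset.sum_congr rfl fun a _ => by ring
  have hmon : ∀ z, qq z ∈ ball (0 : ℂ) ρ → ∀ k, (μ (qq (z + 1)) k - (μ (qq z) k +
      nilOp (0 : Matrix (Fin g) (Fin g) ℝ) (μ (qq z)) k)).im = 0 := by
    intro z _ k
    have h1 : nilOp (0 : Matrix (Fin g) (Fin g) ℝ) (μ (qq z)) k = 0 := by
      rcases k with k | k
      · rfl
      · rw [nilOp_inr]; simp
    rw [h1, qq_add_one]
    simp
  obtain ⟨y₁, hy₁⟩ := pair_cusp (0 : Matrix (Fin g) (Fin g) ℝ) hρ Z hZ _ hv hv0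
    (fun z => μ (qq z)) hder hmon (fun r _ h2 => hpos r h2)
  refine ⟨Real.exp (-(2 * Real.pi * y₁)), Real.exp_pos _, fun u hu hlt hre => ?_⟩
  obtain ⟨z, hz⟩ := exists_qq hu
  subst hz
  exact hy₁ z (im_lt_of_norm_qq hlt) hre

/-- positivity of `Im (z N + Z₀(q))` near a cusp forces `Im Z₀(0)` to be non-degenerate on the
kernel of `N` -/
theorem limit_pos {g : ℕ} (N : Matrix (Fin g) (Fin g) ℝ) {ρ : ℝ} (hρ : 0 < ρ)
    (Z₀ : ℂ → Matrix (Fin g) (Fin g) ℂ)
    (hZ : ∀ a b, DifferentiableOn ℂ (fun q => Z₀ q a b) (ball 0 ρ))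
    (hpos : ∀ z, qq z ∈ ball (0 : ℂ) ρ → ∀ r : Fin g → ℝ, r ≠ 0 →
      0 < ∑ b, ∑ a, r b * (z * ((N b a : ℝ) : ℂ) + Z₀ (qq z) b a).im * r a)
    (r : Fin g → ℝ) (h1 : ∀ b, ∑ a, N b a * r a = 0)
    (h2 : ∀ b, ∑ a, (Z₀ 0 b a).im * r a = 0) : r = 0 := by
  by_contra hr
  set h : ℂ → ℂ := fun q => ∑ b, ∑ a, (r b : ℂ) * Z₀ q b a * (r a : ℂ) with hh
  have him : ∀ q, (h q).im = ∑ b, ∑ a, r b * (Z₀ q b a).im * r a := by
    intro q
    rw [hh]
    simp only [Complex.im_sum]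
    refine Finset.sum_congr rfl fun b _ => Finset.sum_congr rfl fun a _ => ?_
    rw [Complex.im_mul_ofReal, Complex.im_ofReal_mul]
  have hq : ∀ z, qq z ∈ ball (0 : ℂ) ρ → 0 < (h (qq z)).im := by
    intro z hz
    have h3 := hpos z hz r hr
    have h4 : ∑ b, ∑ a, r b * (z * ((N b a : ℝ) : ℂ) + Z₀ (qq z) b a).im * r a
        = (h (qq z)).im := by
      rw [him]
      have h5 : ∀ b, ∑ a, r b * (z * ((N b a : ℝ) : ℂ) + Z₀ (qq z) b a).im * r a
          = r b * z.im * (∑ a, N b a * r a) + ∑ a, r b * (Z₀ (qq z) b a).im * r a := by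
        intro b
        rw [Finset.mul_sum, ← Finset.sum_add_distrib]
        refine Finset.sum_congr rfl fun a _ => ?_
        rw [Complex.add_im, Complex.im_mul_ofReal]
        ring
      refine Finset.sum_congr rfl fun b _ => ?_
      rw [h5 b, h1 b, mul_zero, zero_add]
    rwa [h4] at h3
  have h0 : (h 0).im = 0 := by
    rw [him]
    refine Finset.sum_eq_zero fun b _ => ?_
    have : ∑ a, r b * (Z₀ 0 b a).im * r a = r b * ∑ a, (Z₀ 0 b a).im * r a := by
      rw [Finset.mul_sum]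
      exact Finset.sum_congr rfl fun a _ => by ring
    rw [this, h2 b, mul_zero]
  have hd : DifferentiableOn ℂ h (ball 0 ρ) := by
    refine DifferentiableOn.fun_sum fun b _ => DifferentiableOn.fun_sum fun a _ => ?_
    exact ((hZ b a).const_mul _).mul_const _
  set f : ℂ → ℂ := fun q => Complex.exp (Complex.I * h q) with hf
  have hfn : ∀ q, ‖f q‖ = Real.exp (-(h q).im) := by
    intro q
    rw [hf]
    simp only [Complex.norm_exp]
    congr 1
    simp
  have hnh : ball (0 : ℂ) ρ ∈ 𝓝 (0 : ℂ) := isOpen_ball.mem_nhds (mem_ball_self hρ)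
  have hfd : ∀ᶠ q in 𝓝 (0 : ℂ), DifferentiableAt ℂ f q := by
    filter_upwards [hnh] with q hq'
    have := hd.differentiableAt (isOpen_ball.mem_nhds hq')
    exact (this.const_mul _).cexp
  have hle : ∀ q ∈ ball (0 : ℂ) ρ, ‖f q‖ ≤ ‖f 0‖ := by
    intro q hq'
    rw [hfn, hfn, h0, neg_zero, Real.exp_zero]
    by_cases hq0 : q = 0
    · rw [hq0, h0]; simp
    · obtain ⟨z, rfl⟩ := exists_qq hq0
      have := hq z hq'
      rw [Real.exp_le_one_iff]
      linarith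
  have hmax : IsLocalMax (norm ∘ f) 0 := by
    filter_upwards [hnh] with q hq'
    exact hle q hq'
  have hev := Complex.norm_eventually_eq_of_isLocalMax hfd hmax
  obtain ⟨δ, hδ, hδ2⟩ := Metric.eventually_nhds_iff_ball.mp hev
  set t : ℝ := min δ ρ / 2 with ht
  have ht0 : 0 < t := by
    have : 0 < min δ ρ := lt_min hδ hρ
    positivity
  have htδ : t < δ := by
    have : min δ ρ ≤ δ := min_le_left _ _
    have : 0 < min δ ρ := lt_min hδ hρ
    linarith
  have htρ : t < ρ := by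
    have : min δ ρ ≤ ρ := min_le_right _ _
    have : 0 < min δ ρ := lt_min hδ hρ
    linarith
  have htne : (t : ℂ) ≠ 0 := by exact_mod_cast ht0.ne'
  obtain ⟨z, hz⟩ := exists_qq htne
  have htn : ‖(t : ℂ)‖ = t := by rw [Complex.norm_real, Real.norm_of_nonneg ht0.le]
  have h6 := hδ2 (t : ℂ) (by rw [mem_ball_zero_iff, htn]; exact htδ)
  have h7 := hq z (by rw [hz, mem_ball_zero_iff, htn]; exact htρ)
  rw [hz] at h7
  rw [hfn, hfn, h0, neg_zero, Real.exp_zero, Real.exp_eq_one_iff] at h6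
  linarith

end Pool.Agent.Y92.RS
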