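import Pool.Agent.Y92.RS.Tensor

/-!
# Local period data and the local dichotomies
-/

namespace Pool.Agent.Y92.RS

open Filter Asymptotics Finset Metric
open scoped Topology ComplexConjugate

/-- The Siegel upper half space: `Z` is symmetric with positive definite imaginary part. -/
def Siegel {g : ℕ} (Z : Matrix (Fin g) (Fin g) ℂ) : Prop :=
  Z.IsSymm ∧ ∀ r : Fin g → ℝ, r ≠ 0 → 0 < ∑ b, ∑ a, r b * (Z b a).im * r a

/-- The period data of the variation on a small disc of the base.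
`Z` is the period matrix of the weight one part `H¹`, and `ν` is the (multi-valued) extension
class in `(ℂ^{2g})^{⊗ n}`.  `horizontal` is Griffiths transversality: `ν'` lies in the
`n`-th tensor power of `F¹`. -/
structure DiscChart (g n : ℕ) where
  /-- the radius of the disc -/
  r : ℝ
  r_pos : 0 < r
  /-- the period matrix -/
  Z : ℂ → Matrix (Fin g) (Fin g) ℂ
  Z_holo : ∀ a b, DifferentiableOn ℂ (fun u => Z u a b) (ball 0 r)
  Z_siegel : ∀ u ∈ ball (0 : ℂ) r, Siegel (Z u)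
  /-- the coefficients of `ν'` -/
  coef : ℂ → (Fin n → Fin g) → ℂ
  coef_holo : DifferentiableOn ℂ coef (ball 0 r)
  /-- the extension class -/
  ν : ℂ → TVec g n
  horizontal : ∀ u ∈ ball (0 : ℂ) r, HasDerivAt ν (∑ J, coef u J • omegaT (Z u) J) u

/-- The period data of the variation near a puncture.  The parameter of the base at the puncture
is `s ^ e`, where `s = exp (2 π i z)` and `z` runs over a half plane; `e` is chosen such that the
monodromy in `s` is unipotent.  The period matrix of the weight one part is `z N + Z₀(s)` with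
`Z₀` holomorphic at `s = 0`, and `ν' = Σ_J coef_J(s) ω_J` with `coef` holomorphic at `s = 0`
(moderate growth). -/
structure CuspChart (g n : ℕ) where
  /-- ramification index -/
  e : ℕ
  e_pos : 0 < e
  /-- the radius of the disc of the variable `s` -/
  r : ℝ
  r_pos : 0 < r
  /-- logarithm of the local monodromy on the weight one part -/
  N : Matrix (Fin g) (Fin g) ℚ
  /-- the period matrix is `z N + Z₀(s)` -/
  Z₀ : ℂ → Matrix (Fin g) (Fin g) ℂ
  Z₀_holo : ∀ a b, DifferentiableOn ℂ (fun s => Z₀ s a b) (ball 0 r)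
  Z_siegel : ∀ z, qq z ∈ ball (0 : ℂ) r →
    Siegel (fun b a => z * ((N b a : ℚ) : ℂ) + Z₀ (qq z) b a)
  /-- the coefficients of `ν'` -/
  coef : ℂ → (Fin n → Fin g) → ℂ
  coef_holo : DifferentiableOn ℂ coef (ball 0 r)
  /-- the extension class -/
  ν : ℂ → TVec g n
  horizontal : ∀ z, qq z ∈ ball (0 : ℂ) r → HasDerivAt ν
    (∑ J, coef (qq z) J • omegaT (fun b a => z * ((N b a : ℚ) : ℂ) + Z₀ (qq z) b a) J) z
  /-- local monodromy -/
  monodromy : ∀ z, qq z ∈ ball (0 : ℂ) r →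
    ∃ w : (Fin n → Lab g) → ℚ, ν (z + 1) = tact (unip N) (ν z) + fun I => ((w I : ℚ) : ℂ)

theorem nondeg_of_siegel {g : ℕ} {Z : Matrix (Fin g) (Fin g) ℂ} (h : Siegel Z)
    (r : Fin g → ℝ) (hr : ∀ b, ∑ a, (Z b a).im * r a = 0) : r = 0 := by
  by_contra h0
  have h1 := h.2 r h0
  have h2 : ∑ b, ∑ a, r b * (Z b a).im * r a = 0 := by
    refine Finset.sum_eq_zero fun b _ => ?_
    have : ∑ a, r b * (Z b a).im * r a = r b * ∑ a, (Z b a).im * r a := by
      rw [Finset.mul_sum]
      exact Finset.sum_congr rfl fun a _ => by ring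
    rw [this, hr b, mul_zero]
  linarith

/-- if a vector valued function is not eventually zero, some coordinate is not eventually zero -/
theorem exists_coord_not_eventually {ι : Type*} [Finite ι] {f : ℂ → ι → ℂ}
    (h : ¬ ∀ᶠ q in 𝓝 (0 : ℂ), f q = 0) : ∃ i, ¬ ∀ᶠ q in 𝓝 (0 : ℂ), f q i = 0 := by
  by_contra hall
  push Not at hall
  apply h
  have := eventually_all.mpr hall
  filter_upwards [this] with q hq
  exact funext hq

theorem DiscChart.dichotomy {g n : ℕ} (c : DiscChart g (n + 1)) :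
    (∃ ε > 0, ε ≤ c.r ∧ ∀ u : ℂ, u ≠ 0 → ‖u‖ < ε → ¬ ∀ I, (c.ν u I).im = 0) ∨
    (∃ ε > 0, ε ≤ c.r ∧ ∃ v₀, ∀ u : ℂ, ‖u‖ < ε → c.ν u = v₀) := by
  by_cases h : ∀ᶠ u in 𝓝 (0 : ℂ), c.coef u = 0
  · right
    obtain ⟨δ, hδ, hδ2⟩ := Metric.eventually_nhds_iff_ball.mp h
    refine ⟨min δ c.r, lt_min hδ c.r_pos, min_le_right _ _, ?_⟩
    have hder : ∀ u ∈ ball (0 : ℂ) (min δ c.r), HasDerivAt c.ν 0 u := by
      intro u hu
      have hu1 : u ∈ ball (0 : ℂ) δ := ball_subset_ball (min_le_left _ _) hu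
      have hu2 : u ∈ ball (0 : ℂ) c.r := ball_subset_ball (min_le_right _ _) hu
      refine (c.horizontal u hu2).congr_deriv ?_
      rw [hδ2 u hu1]
      simp
    obtain ⟨v₀, hv₀⟩ := (isOpen_ball (x := (0 : ℂ)) (ε := min δ c.r)).exists_is_const_of_deriv_eq_zero
      (convex_ball (0 : ℂ) (min δ c.r)).isPreconnected
      (fun z hz => (hder z hz).differentiableAt.differentiableWithinAt)
      (fun z hz => (hder z hz).deriv)
    exact ⟨v₀, fun u hu => hv₀ u (by rwa [mem_ball_zero_iff])⟩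
  · left
    obtain ⟨J, hJ⟩ := exists_coord_not_eventually h
    set J' : Fin n → Fin g := fun t => J (Fin.succ t) with hJ'
    have hJc : J = Fin.cons (J 0) J' := (Fin.cons_self_tail J).symm
    set p : ℂ → Fin g → ℂ := fun u a => c.coef u (Fin.cons a J') with hp
    have hpd : DifferentiableOn ℂ p (ball 0 c.r) := by
      rw [differentiableOn_pi]
      intro a
      exact (differentiableOn_pi.mp c.coef_holo) (Fin.cons a J')
    have hp0 : ¬ ∀ᶠ q in 𝓝 (0 : ℂ), p q = 0 := by
      intro h1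
      apply hJ
      filter_upwards [h1] with q hq
      rw [hJc]
      exact congrFun hq (J 0)
    have hμ : ∀ u ∈ ball (0 : ℂ) c.r, HasDerivAt (fun u => slice J' (c.ν u))
        (Sum.elim (p u) (fun b => ∑ a, c.Z u b a * p u a)) u := by
      intro u hu
      have h1 := (sliceL J').hasFDerivAt.comp_hasDerivAt u (c.horizontal u hu)
      refine h1.congr_deriv ?_
      rw [sliceL_apply, slice_sum_omegaT]
    obtain ⟨ε, hε, hmain⟩ := pair_disc c.r_pos c.Z c.Z_holo p hpd hp0 _ hμ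
      (fun r hr => nondeg_of_siegel (c.Z_siegel 0 (mem_ball_self c.r_pos)) r hr)
    refine ⟨min ε c.r, lt_min hε c.r_pos, min_le_right _ _, fun u hu hlt hre => ?_⟩
    exact hmain u hu (lt_of_lt_of_le hlt (min_le_left _ _)) (fun k => hre _)

theorem CuspChart.dichotomy {g n : ℕ} (c : CuspChart g (n + 1)) :
    (∃ y₁ : ℝ, ∀ z : ℂ, y₁ < z.im → ¬ ∀ I, (c.ν z I).im = 0) ∨
    (∃ y₁ : ℝ, ∃ v₀, ∀ z : ℂ, y₁ < z.im → c.ν z = v₀) := by
  by_cases h : ∀ᶠ u in 𝓝 (0 : ℂ), c.coef u = 0
  · right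
    obtain ⟨δ, hδ, hδ2⟩ := Metric.eventually_nhds_iff_ball.mp h
    obtain ⟨y, -, hy⟩ := exists_exp_le (lt_min hδ c.r_pos) 0
    have hder : ∀ z : ℂ, y < z.im → HasDerivAt c.ν 0 z := by
      intro z hz
      have hq := norm_qq_lt hy hz
      have hu1 : qq z ∈ ball (0 : ℂ) δ := ball_subset_ball (min_le_left _ _) hq
      have hu2 : qq z ∈ ball (0 : ℂ) c.r := ball_subset_ball (min_le_right _ _) hq
      refine (c.horizontal z hu2).congr_deriv ?_
      rw [hδ2 _ hu1]
      simp
    obtain ⟨v₀, hv₀⟩ := const_on_halfPlane hder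
    exact ⟨y, v₀, hv₀⟩
  · left
    obtain ⟨J, hJ⟩ := exists_coord_not_eventually h
    set J' : Fin n → Fin g := fun t => J (Fin.succ t) with hJ'
    have hJc : J = Fin.cons (J 0) J' := (Fin.cons_self_tail J).symm
    set p : ℂ → Fin g → ℂ := fun u a => c.coef u (Fin.cons a J') with hp
    have hpd : DifferentiableOn ℂ p (ball 0 c.r) := by
      rw [differentiableOn_pi]
      intro a
      exact (differentiableOn_pi.mp c.coef_holo) (Fin.cons a J')
    have hp0 : ¬ ∀ᶠ q in 𝓝 (0 : ℂ), p q = 0 := by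
      intro h1
      apply hJ
      filter_upwards [h1] with q hq
      rw [hJc]
      exact congrFun hq (J 0)
    set NR : Matrix (Fin g) (Fin g) ℝ := c.N.map (fun t : ℚ => (t : ℝ)) with hNR
    have hμ : ∀ z, qq z ∈ ball (0 : ℂ) c.r → HasDerivAt (fun z => slice J' (c.ν z))
        (Sum.elim (p (qq z)) (fun b => ∑ a, (z * ((NR b a : ℝ) : ℂ) + c.Z₀ (qq z) b a) *
          p (qq z) a)) z := by
      intro z hz
      have h1 := (sliceL J').hasFDerivAt.comp_hasDerivAt z (c.horizontal z hz)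
      refine h1.congr_deriv ?_
      rw [sliceL_apply, slice_sum_omegaT]
      simp [hNR, hp]
    have hmon : ∀ z, qq z ∈ ball (0 : ℂ) c.r → ∀ k, (slice J' (c.ν (z + 1)) k -
        (slice J' (c.ν z) k + nilOp NR (slice J' (c.ν z)) k)).im = 0 := by
      intro z hz k
      obtain ⟨w, hw⟩ := c.monodromy z hz
      have h1 : slice J' (c.ν (z + 1)) k = slice J' (tact (unip c.N) (c.ν z)) k
          + ((w (Fin.cons k (fun t => Sum.inl (J' t))) : ℚ) : ℂ) := by
        rw [hw]; rfl
      rw [h1, slice_tact_eq, add_sub_cancel_left]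
      exact Complex.ratCast_im _
    have hsieg : ∀ z, qq z ∈ ball (0 : ℂ) c.r → ∀ r : Fin g → ℝ, r ≠ 0 →
        0 < ∑ b, ∑ a, r b * (z * ((NR b a : ℝ) : ℂ) + c.Z₀ (qq z) b a).im * r a := by
      intro z hz r hr
      have := (c.Z_siegel z hz).2 r hr
      simpa [hNR] using this
    obtain ⟨y₁, hmain⟩ := pair_cusp NR c.r_pos c.Z₀ c.Z₀_holo p hpd hp0 _ hμ hmon
      (fun r h1 h2 => limit_pos NR c.r_pos c.Z₀ c.Z₀_holo hsieg r h1 h2)
    exact ⟨y₁, fun z hz hre => hmain z hz (fun k => hre _)⟩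

end Pool.Agent.Y92.RS
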