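import Pool.Agent.Y92.RS.Solve

/-!
# Real points of a period integral near a cusp

The main local statement `cusp_nonreal`: if `ν' = exp (z N) q ^ m ψ(q)` with real monodromy and
`ψ(0)` is not a complex multiple of a real vector killed by `N`, then `ν(z)` is not real for
`Im z` large.
-/

namespace Pool.Agent.Y92.RS

open Filter Asymptotics Finset Metric
open scoped Topology ComplexConjugate Nat

/-- the parameter `exp (2 π i z)` -/
noncomputable def qq (z : ℂ) : ℂ := Complex.exp (2 * Real.pi * Complex.I * z)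

theorem norm_qq (z : ℂ) : ‖qq z‖ = Real.exp (-(2 * Real.pi * z.im)) := by
  rw [qq, Complex.norm_exp]
  congr 1
  simp

theorem qq_add_one (z : ℂ) : qq (z + 1) = qq z := by
  unfold qq
  rw [mul_add, mul_one, Complex.exp_add, Complex.exp_two_pi_mul_I, mul_one]

theorem qq_ne_zero (z : ℂ) : qq z ≠ 0 := Complex.exp_ne_zero _

theorem hasDerivAt_qq (z : ℂ) : HasDerivAt qq (2 * Real.pi * Complex.I * qq z) z := by
  have h : HasDerivAt (fun z : ℂ => 2 * Real.pi * Complex.I * z) (2 * Real.pi * Complex.I) z := by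
    simpa using (hasDerivAt_id z).const_mul (2 * Real.pi * Complex.I : ℂ)
  refine h.cexp.congr_deriv ?_
  unfold qq
  ring

theorem norm_qq_lt {z : ℂ} {c ρ : ℝ} (hc : Real.exp (-(2 * Real.pi * c)) ≤ ρ) (hz : c < z.im) :
    qq z ∈ ball (0 : ℂ) ρ := by
  rw [mem_ball_zero_iff, norm_qq]
  refine lt_of_lt_of_le ?_ hc
  apply Real.exp_lt_exp.mpr
  have := Real.pi_pos
  nlinarith

theorem exists_exp_le {ρ : ℝ} (hρ : 0 < ρ) (c : ℝ) :
    ∃ c' : ℝ, c ≤ c' ∧ Real.exp (-(2 * Real.pi * c')) ≤ ρ := by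
  refine ⟨max c (-(Real.log ρ) / (2 * Real.pi)), le_max_left _ _, ?_⟩
  have h1 : -(Real.log ρ) / (2 * Real.pi) ≤ max c (-(Real.log ρ) / (2 * Real.pi)) :=
    le_max_right _ _
  have hpi : 0 < 2 * Real.pi := by positivity
  rw [div_le_iff₀ hpi] at h1
  have h2 : -(2 * Real.pi * max c (-(Real.log ρ) / (2 * Real.pi))) ≤ Real.log ρ := by linarith
  calc Real.exp (-(2 * Real.pi * max c (-(Real.log ρ) / (2 * Real.pi))))
      ≤ Real.exp (Real.log ρ) := Real.exp_le_exp.mpr h2
    _ = ρ := Real.exp_log hρ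

variable {E : Type*} [NormedAddCommGroup E] [NormedSpace ℂ E] {κ : Type*}
  {x : κ → E →L[ℂ] ℂ}

/-- a vector which is both real and purely imaginary vanishes -/
theorem eq_zero_of_isRe (hx : ∀ v, (∀ k, x k v = 0) → v = 0) {v : E} (h1 : IsRe x v)
    (h2 : IsRe x (Complex.I • v)) : v = 0 := by
  apply hx
  intro k
  have h3 := h2 k
  rw [map_smul, smul_eq_mul, Complex.I_mul_im] at h3
  exact Complex.ext h3 (h1 k)

/-- the derivative of a real-valued curve is real -/
theorem isRe_deriv {f : ℝ → E} {f' : E} {t : ℝ} (hf : ∀ s, IsRe x (f s)) (h : HasDerivAt f f' t) :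
    IsRe x f' := by
  have h1 := hasDerivAt_iff_tendsto_slope.mp h
  refine isRe_of_tendsto h1 (Frequently.of_forall fun s => ?_)
  rw [slope_def_module]
  have h2 : IsRe x (f s - f t) := (hf s).sub (hf t)
  have h3 : ((s - t)⁻¹ : ℝ) • (f s - f t) = (((s - t)⁻¹ : ℝ) : ℂ) • (f s - f t) := by
    rw [Complex.coe_smul]
  rw [h3]
  exact h2.smul_real _

theorem RealOp.neg {M : E →L[ℂ] E} (hM : RealOp x M) : RealOp x (-M) := fun v hv => by
  simpa using (hM v hv).neg

variable [CompleteSpace E]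

/-- the operator `tz N K 1` has a real inverse -/
theorem isRe_of_tz_one {N : E →L[ℂ] E} (hN : RealOp x N) {K : ℕ} (hK : N ^ K = 0) (hK0 : K ≠ 0)
    {w : E} (h : IsRe x (tz N K 1 w)) : IsRe x w := by
  obtain ⟨L, rfl⟩ : ∃ L, K = L + 1 := ⟨K - 1, by omega⟩
  set R : E →L[ℂ] E := ∑ j ∈ range L, ((((j + 1) + 1)! : ℂ)⁻¹) • N ^ j with hR
  have h1 : tz N (L + 1) 1 = 1 - (-(N * R)) := by
    unfold tz
    rw [Finset.sum_range_succ', hR, Finset.mul_sum]
    simp only [one_pow, mul_one, zero_add, Nat.factorial_one, Nat.cast_one, inv_one, pow_zero,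
      one_smul, sub_neg_eq_add]
    rw [add_comm]
    congr 1
    refine Finset.sum_congr rfl fun j _ => ?_
    rw [pow_succ', mul_smul_comm]
  have hcomm : Commute N R := by
    rw [hR]
    refine Commute.sum_right _ _ _ fun j _ => ?_
    exact (Commute.self_pow N j).smul_right _
  set M : E →L[ℂ] E := -(N * R) with hM
  have hMK : M ^ (L + 1) = 0 := by
    rw [hM, neg_pow, hcomm.mul_pow, hK, zero_mul, mul_zero]
  have hMre : RealOp x M := by
    apply RealOp.neg
    intro v hv
    change IsRe x (N (R v))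
    apply hN
    rw [hR]
    simp only [_root_.sum_apply, _root_.smul_apply]
    refine IsRe.sum _ fun j _ => (hN.pow j v hv).smul ?_
    rw [← Complex.ofReal_natCast, ← Complex.ofReal_inv]
    exact Complex.ofReal_im _
  have h2 : (∑ i ∈ range (L + 1), M ^ i) * tz N (L + 1) 1 = 1 := by
    rw [h1, geom_sum_mul_neg, hMK, sub_zero]
  have h3 : w = (∑ i ∈ range (L + 1), M ^ i) (tz N (L + 1) 1 w) := by
    have := congrArg (fun T => T w) h2
    simpa using this.symm
  rw [h3, _root_.sum_apply]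
  exact IsRe.sum _ fun j _ => hMre.pow j _ h

omit [CompleteSpace E] in
/-- a function with zero derivative on a half plane is constant there -/
theorem const_on_halfPlane {F : ℂ → E} {c : ℝ} (h : ∀ z : ℂ, c < z.im → HasDerivAt F 0 z) :
    ∃ a : E, ∀ z : ℂ, c < z.im → F z = a := by
  have hopen : IsOpen {z : ℂ | c < z.im} := isOpen_lt continuous_const Complex.continuous_im
  have hconv : Convex ℝ {z : ℂ | c < z.im} := convex_halfSpace_im_gt c
  exact hopen.exists_is_const_of_deriv_eq_zero hconv.isPreconnected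
    (fun z hz => (h z hz).differentiableAt.differentiableWithinAt) (fun z hz => (h z hz).deriv)

/-- the derivative of `exp(zN) F(q)` -/
theorem hasDerivAt_ex_comp (N : E →L[ℂ] E) {F : ℂ → E} {F' : E} {z : ℂ}
    (h : HasDerivAt F F' (qq z)) :
    HasDerivAt (fun z => ex N z (F (qq z)))
      (ex N z ((2 * Real.pi * Complex.I * qq z) • F' + N (F (qq z)))) z := by
  have h1 : HasDerivAt (fun z => F (qq z)) ((2 * Real.pi * Complex.I * qq z) • F') z :=
    h.scomp z (hasDerivAt_qq z)
  have h2 := (hasDerivAt_ex N z).clm_apply h1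
  convert h2 using 1
  change _ = N (ex N z (F (qq z))) + ex N z ((2 * Real.pi * Complex.I * qq z) • F')
  rw [map_add, ex_comm_apply, add_comm]

end Pool.Agent.Y92.RS
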