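import Pool.Agent.Y92.RS.Cusp

/-!
# Real points of a period integral near a cusp: the main local statement
-/

namespace Pool.Agent.Y92.RS

open Filter Asymptotics Finset Metric
open scoped Topology ComplexConjugate Nat

variable {E : Type*} [NormedAddCommGroup E] [NormedSpace ℂ E] {κ : Type*}
  {x : κ → E →L[ℂ] ℂ}

theorem hasDerivAt_comp_I {G : ℂ → E} {G' : E} {y : ℝ} (h : HasDerivAt G G' (y * Complex.I)) :
    HasDerivAt (fun t : ℝ => G (t * Complex.I)) (Complex.I • G') y := by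
  have h1 : HasDerivAt (fun t : ℝ => (t : ℂ) * Complex.I) Complex.I y := by
    have := (Complex.ofRealCLM.hasDerivAt (x := y)).mul_const Complex.I
    simpa using this
  exact h.scomp y h1

variable [CompleteSpace E]

/-- real points can be moved to the imaginary axis -/
theorem isRe_shift {N : E →L[ℂ] E} (hN : RealOp x N) {K : ℕ} (hK : N ^ K = 0) {w₀ : E}
    (hw₀ : IsRe x w₀) {z : ℂ} {v : E} (h : IsRe x (ex N z v + tz N K z w₀)) :
    IsRe x (ex N (z.im * Complex.I) v + tz N K (z.im * Complex.I) w₀) := by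
  have hz : z = (z.re : ℂ) + (z.im : ℂ) * Complex.I := (Complex.re_add_im z).symm
  have h1 : ex N z v + tz N K z w₀ = tz N K z.re w₀ +
      ex N z.re (ex N (z.im * Complex.I) v + tz N K (z.im * Complex.I) w₀) := by
    conv_lhs => rw [hz]
    rw [ex_add, tz_add_apply hK, map_add]
    change ex N z.re (ex N (z.im * Complex.I) v) + _ = _
    abel
  have h2 : IsRe x (ex N z.re
      (ex N (z.im * Complex.I) v + tz N K (z.im * Complex.I) w₀)) := by
    have := h.sub (tz_re (K := K) hN z.re hw₀)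
    rw [h1] at this
    simpa using this
  have h3 := ex_re hN hK (-z.re) h2
  rw [Complex.ofReal_neg, ex_neg_apply] at h3
  exact h3

/-- the case of a log pole -/
theorem cusp_zero (hx : ∀ v, (∀ k, x k v = 0) → v = 0)
    {N : E →L[ℂ] E} (hN : RealOp x N) {K : ℕ} (hK : N ^ K = 0) (hK0 : K ≠ 0)
    {c ρ : ℝ} (hc : Real.exp (-(2 * Real.pi * c)) ≤ ρ)
    {Φ : ℂ → E} (hΦ : Good ρ 1 Φ) (φ₀ a : E) {ν : ℂ → E}
    (hν : ∀ z : ℂ, c < z.im → ν z = a + tz N K z φ₀ + ex N z (Φ (qq z)))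
    (hmon : ∀ z : ℂ, c < z.im → IsRe x (ν (z + 1) - ex N 1 (ν z)))
    (hlim : ∀ r, IsRe x r → N r = 0 → ∀ b : ℂ, φ₀ ≠ b • r) :
    ∃ y₁ : ℝ, ∀ z : ℂ, y₁ < z.im → ¬ IsRe x (ν z) := by
  by_contra hcon
  push Not at hcon
  set w₀ : E := φ₀ - N a with hw₀def
  have hν' : ∀ z : ℂ, c < z.im → ν z = ex N z (a + Φ (qq z)) + tz N K z w₀ := by
    intro z hz
    have h1 : tz N K z φ₀ = tz N K z w₀ + (ex N z a - a) := by
      rw [← tz_mul_apply hK, ← map_add, hw₀def, sub_add_cancel]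
    rw [hν z hz, h1, map_add]
    abel
  have hw₀ : IsRe x w₀ := by
    apply isRe_of_tz_one hN hK hK0
    have hz : c < ((c + 1 : ℝ) * Complex.I : ℂ).im := by simp
    have hz1 : c < ((c + 1 : ℝ) * Complex.I + 1 : ℂ).im := by simp
    have h1 := hmon _ hz
    have h2 : ∀ A B C : E, A + (B + C) - (A + C) = B := fun A B C => by abel
    rw [hν' _ hz1, hν' _ hz, qq_add_one, add_comm ((c + 1 : ℝ) * Complex.I : ℂ) 1, ex_add,
      tz_add_apply hK, map_add (ex N 1)] at h1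
    have h3 := h2 ((ex N 1) ((ex N ((c + 1 : ℝ) * Complex.I : ℂ))
      (a + Φ (qq ((c + 1 : ℝ) * Complex.I : ℂ))))) (tz N K 1 w₀)
      ((ex N 1) (tz N K ((c + 1 : ℝ) * Complex.I : ℂ) w₀))
    rw [← h3]
    exact h1
  obtain ⟨hΦd, D, hD, hΦb⟩ := hΦ
  obtain ⟨C, hC, hgrow⟩ := ex_growth hK
  -- the polynomial curve
  have hreal : ∀ y : ℝ, IsRe x (ex N (y * Complex.I) a + tz N K (y * Complex.I) w₀) := by
    intro y k
    rw [map_add]
    have hpoly : IsPolyFun (fun y : ℝ => x k (ex N (y * Complex.I) a)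
        + x k (tz N K (y * Complex.I) w₀)) := (isPolyFun_ex hK a k).add (isPolyFun_tz K w₀ k)
    refine hpoly.im_eq_zero (‖x k‖ * (C * D)) K ?_ y
    intro y₁
    obtain ⟨z, hz, hzre⟩ := hcon (max y₁ (max c 0))
    have hz1 : y₁ < z.im := lt_of_le_of_lt (le_max_left _ _) hz
    have hz2 : c < z.im := lt_of_le_of_lt ((le_max_left _ _).trans (le_max_right _ _)) hz
    have hz3 : 0 < z.im := lt_of_le_of_lt ((le_max_right _ _).trans (le_max_right _ _)) hz
    refine ⟨z.im, hz1, ?_⟩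
    rw [hν' z hz2] at hzre
    have h4 := isRe_shift hN hK hw₀ hzre k
    rw [map_add (ex N _), map_add, map_add] at h4
    have h5 : (x k (ex N (z.im * Complex.I) a) + x k (tz N K (z.im * Complex.I) w₀)).im
        = -(x k (ex N (z.im * Complex.I) (Φ (qq z)))).im := by
      simp only [Complex.add_im] at h4 ⊢
      linarith
    rw [h5, abs_neg]
    calc |(x k (ex N (z.im * Complex.I) (Φ (qq z)))).im|
        ≤ ‖x k (ex N (z.im * Complex.I) (Φ (qq z)))‖ := Complex.abs_im_le_norm _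
      _ ≤ ‖x k‖ * ‖ex N (z.im * Complex.I) (Φ (qq z))‖ := (x k).le_opNorm _
      _ ≤ ‖x k‖ * (‖ex N (z.im * Complex.I)‖ * ‖Φ (qq z)‖) := by
          gcongr
          exact (ex N (z.im * Complex.I)).le_opNorm _
      _ ≤ ‖x k‖ * ((C * (1 + z.im) ^ K) * (D * ‖qq z‖ ^ 1)) := by
          gcongr
          · exact hgrow _ hz3.le
          · exact hΦb _ (norm_qq_lt hc hz2)
      _ = ‖x k‖ * (C * D) * (1 + z.im) ^ K * Real.exp (-(2 * Real.pi * z.im)) := by
          rw [pow_one, norm_qq]; ring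
  -- first derivative
  have hd1 : ∀ y : ℝ, HasDerivAt (fun y : ℝ => ex N (y * Complex.I) a
      + tz N K (y * Complex.I) w₀) (Complex.I • ex N (y * Complex.I) φ₀) y := by
    intro y
    have h1 := hasDerivAt_comp_I (hasDerivAt_ex_apply N (y * Complex.I) a)
    have h2 : HasDerivAt (fun ζ : ℂ => tz N K ζ w₀) (ex N (y * Complex.I) w₀) (y * Complex.I) := by
      have := (hasDerivAt_tz hK (y * Complex.I)).clm_apply (hasDerivAt_const _ w₀)
      simpa using this
    have h3 := hasDerivAt_comp_I h2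
    have h4 := h1.add h3
    refine h4.congr_deriv ?_
    rw [← smul_add, ex_comm_apply, ← map_add, hw₀def, add_sub_cancel]
  have hre1 : ∀ y : ℝ, IsRe x (Complex.I • ex N (y * Complex.I) φ₀) := fun y =>
    isRe_deriv hreal (hd1 y)
  -- second derivative
  have hd2 : HasDerivAt (fun y : ℝ => Complex.I • ex N (y * Complex.I) φ₀)
      (Complex.I • (Complex.I • N (ex N ((0 : ℝ) * Complex.I) φ₀))) 0 := by
    have h1 := hasDerivAt_comp_I (hasDerivAt_ex_apply N ((0 : ℝ) * Complex.I) φ₀)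
    exact h1.const_smul Complex.I
  have hre2 := isRe_deriv hre1 hd2
  have hre3 := hre1 0
  simp only [Complex.ofReal_zero, zero_mul, ex_zero, ContinuousLinearMap.one_apply] at hre2 hre3
  rw [smul_smul, Complex.I_mul_I, neg_one_smul] at hre2
  have hre4 : IsRe x (N φ₀) := by simpa using hre2.neg
  have hre5 : IsRe x (Complex.I • N φ₀) := by
    rw [← map_smul]
    exact hN _ hre3
  have hN0 : N φ₀ = 0 := eq_zero_of_isRe hx hre4 hre5
  refine hlim (Complex.I • φ₀) hre3 (by rw [map_smul, hN0, smul_zero]) (-Complex.I) ?_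
  rw [smul_smul]
  simp

/-- the case without log pole -/
theorem cusp_pos (hx : ∀ v, (∀ k, x k v = 0) → v = 0)
    {N : E →L[ℂ] E} (hN : RealOp x N) {K : ℕ} (hK : N ^ K = 0) (hK0 : K ≠ 0)
    {c ρ : ℝ} (hc : Real.exp (-(2 * Real.pi * c)) ≤ ρ) {m : ℕ} (hm : 1 ≤ m)
    {Φ : ℂ → E} (hΦ : Good ρ (m + 1) Φ) (g a : E) {ν : ℂ → E}
    (hν : ∀ z : ℂ, c < z.im → ν z = a + ex N z ((qq z) ^ m • g + Φ (qq z)))
    (hmon : ∀ z : ℂ, c < z.im → IsRe x (ν (z + 1) - ex N 1 (ν z)))
    (hlim : ∀ r, IsRe x r → N r = 0 → ∀ b : ℂ, g ≠ b • r) :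
    ∃ y₁ : ℝ, ∀ z : ℂ, y₁ < z.im → ¬ IsRe x (ν z) := by
  by_contra hcon
  push Not at hcon
  obtain ⟨hΦd, D, hD, hΦb⟩ := hΦ
  obtain ⟨C, hC, hgrow⟩ := ex_growth hK
  have hNa : IsRe x (N a) := by
    apply isRe_of_tz_one hN hK hK0
    have hz : c < ((c + 1 : ℝ) * Complex.I : ℂ).im := by simp
    have hz1 : c < ((c + 1 : ℝ) * Complex.I + 1 : ℂ).im := by simp
    have h1 := hmon _ hz
    rw [hν _ hz1, hν _ hz, qq_add_one, add_comm ((c + 1 : ℝ) * Complex.I : ℂ) 1, ex_add,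
      map_add (ex N 1)] at h1
    have h2 : ∀ A B C : E, A + B - (C + B) = -(C - A) := fun A B C => by abel
    rw [ContinuousLinearMap.mul_apply, h2, ← tz_mul_apply hK] at h1
    simpa using h1.neg
  have hν' : ∀ z : ℂ, c < z.im → ν z = ex N z (a + ((qq z) ^ m • g + Φ (qq z)))
      + tz N K z (-(N a)) := by
    intro z hz
    rw [hν z hz, map_neg, tz_mul_apply hK, map_add (ex N z) a]
    abel
  have hshift : ∀ z : ℂ, c < z.im → IsRe x (ν z) →
      IsRe x (a + ex N (z.im * Complex.I) ((qq z) ^ m • g + Φ (qq z))) := by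
    intro z hz hre
    rw [hν' z hz] at hre
    have h1 := isRe_shift hN hK hNa.neg hre
    rw [map_neg, tz_mul_apply hK, map_add (ex N _) a] at h1
    convert h1 using 1
    abel
  have hq1 : ∀ z : ℂ, 0 < z.im → ‖qq z‖ ≤ 1 := by
    intro z hz
    rw [norm_qq, Real.exp_le_one_iff]
    have := Real.pi_pos
    nlinarith [mul_pos this hz]
  -- `a` is real
  have ha : IsRe x a := by
    intro k
    refine (IsPolyFun.const (x k a)).im_eq_zero (‖x k‖ * (C * (‖g‖ + D))) K ?_ 0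
    intro y₁
    obtain ⟨z, hz, hzre⟩ := hcon (max y₁ (max c 0))
    have hz1 : y₁ < z.im := lt_of_le_of_lt (le_max_left _ _) hz
    have hz2 : c < z.im := lt_of_le_of_lt ((le_max_left _ _).trans (le_max_right _ _)) hz
    have hz3 : 0 < z.im := lt_of_le_of_lt ((le_max_right _ _).trans (le_max_right _ _)) hz
    refine ⟨z.im, hz1, ?_⟩
    have h4 := hshift z hz2 hzre k
    rw [map_add] at h4
    have h5 : (x k a).im
        = -(x k (ex N (z.im * Complex.I) ((qq z) ^ m • g + Φ (qq z)))).im := by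
      simp only [Complex.add_im] at h4 ⊢
      linarith
    have hqn := hq1 z hz3
    have hv : ‖(qq z) ^ m • g + Φ (qq z)‖ ≤ (‖g‖ + D) * ‖qq z‖ := by
      calc ‖(qq z) ^ m • g + Φ (qq z)‖ ≤ ‖(qq z) ^ m • g‖ + ‖Φ (qq z)‖ := norm_add_le _ _
        _ ≤ ‖qq z‖ ^ m * ‖g‖ + D * ‖qq z‖ ^ (m + 1) := by
            rw [norm_smul, norm_pow]
            gcongr
            exact hΦb _ (norm_qq_lt hc hz2)
        _ ≤ ‖qq z‖ ^ 1 * ‖g‖ + D * ‖qq z‖ ^ 1 := by
            gcongr ?_ * _ + _ * ?_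
            · exact pow_le_pow_of_le_one (norm_nonneg _) hqn hm
            · exact pow_le_pow_of_le_one (norm_nonneg _) hqn (by omega)
        _ = (‖g‖ + D) * ‖qq z‖ := by ring
    rw [h5, abs_neg]
    calc |(x k (ex N (z.im * Complex.I) ((qq z) ^ m • g + Φ (qq z)))).im|
        ≤ ‖x k (ex N (z.im * Complex.I) ((qq z) ^ m • g + Φ (qq z)))‖ :=
          Complex.abs_im_le_norm _
      _ ≤ ‖x k‖ * ‖ex N (z.im * Complex.I) ((qq z) ^ m • g + Φ (qq z))‖ := (x k).le_opNorm _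
      _ ≤ ‖x k‖ * (‖ex N (z.im * Complex.I)‖ * ‖(qq z) ^ m • g + Φ (qq z)‖) := by
          gcongr
          exact (ex N (z.im * Complex.I)).le_opNorm _
      _ ≤ ‖x k‖ * ((C * (1 + z.im) ^ K) * ((‖g‖ + D) * ‖qq z‖)) := by
          gcongr
          exact hgrow _ hz3.le
      _ = ‖x k‖ * (C * (‖g‖ + D)) * (1 + z.im) ^ K * Real.exp (-(2 * Real.pi * z.im)) := by
          rw [norm_qq]; ring
  have hshift2 : ∀ z : ℂ, c < z.im → IsRe x (ν z) →
      IsRe x (ex N (z.im * Complex.I) ((qq z) ^ m • g + Φ (qq z))) := by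
    intro z hz hre
    have := (hshift z hz hre).sub ha
    simpa using this
  -- the products of coordinates are real
  have hprod : ∀ k l : κ, ∀ y : ℝ, (x k (ex N (y * Complex.I) g) *
      conj (x l (ex N (y * Complex.I) g))).im = 0 := by
    intro k l
    have hpoly : IsPolyFun (fun y : ℝ => x k (ex N (y * Complex.I) g) *
      conj (x l (ex N (y * Complex.I) g))) := (isPolyFun_ex hK g k).mul (isPolyFun_ex hK g l).conj
    refine hpoly.im_eq_zero (‖x k‖ * ‖x l‖ * C ^ 2 * (2 * (‖g‖ + D) * D + D ^ 2)) (2 * K) ?_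
    intro y₁
    obtain ⟨z, hz, hzre⟩ := hcon (max y₁ (max c 0))
    have hz1 : y₁ < z.im := lt_of_le_of_lt (le_max_left _ _) hz
    have hz2 : c < z.im := lt_of_le_of_lt ((le_max_left _ _).trans (le_max_right _ _)) hz
    have hz3 : 0 < z.im := lt_of_le_of_lt ((le_max_right _ _).trans (le_max_right _ _)) hz
    refine ⟨z.im, hz1, ?_⟩
    have hv := hshift2 z hz2 hzre
    set T := ex N (z.im * Complex.I) with hT
    have hqpos : 0 < ‖qq z‖ := norm_pos_iff.mpr (qq_ne_zero z)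
    have hqm : 0 < ‖qq z‖ ^ m := pow_pos hqpos m
    have hqn := hq1 z hz3
    set s : ℂ := ((((‖qq z‖ ^ m)⁻¹ : ℝ)) : ℂ) with hs
    set ϑ : ℂ := s * (qq z) ^ m with hϑ
    set e : E := s • T (Φ (qq z)) with he
    have hϑn : ‖ϑ‖ = 1 := by
      rw [hϑ, norm_mul, hs, Complex.norm_real, Real.norm_of_nonneg (by positivity), norm_pow]
      exact inv_mul_cancel₀ hqm.ne'
    have hv2 : IsRe x (ϑ • T g + e) := by
      have h1 := hv.smul_real ((‖qq z‖ ^ m)⁻¹)
      rw [← hs, map_add, map_smul, smul_add, smul_smul] at h1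
      exact h1
    have hTn : ‖T‖ ≤ C * (1 + z.im) ^ K := hgrow _ hz3.le
    have hTg : ‖T g‖ ≤ C * (1 + z.im) ^ K * ‖g‖ := (T.le_opNorm g).trans (by gcongr)
    have hen : ‖e‖ ≤ C * (1 + z.im) ^ K * D * ‖qq z‖ := by
      rw [he, norm_smul, hs, Complex.norm_real, Real.norm_of_nonneg (by positivity)]
      calc (‖qq z‖ ^ m)⁻¹ * ‖T (Φ (qq z))‖
          ≤ (‖qq z‖ ^ m)⁻¹ * (‖T‖ * ‖Φ (qq z)‖) := by gcongr; exact T.le_opNorm _
        _ ≤ (‖qq z‖ ^ m)⁻¹ * ((C * (1 + z.im) ^ K) * (D * ‖qq z‖ ^ (m + 1))) := by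
            gcongr
            exact hΦb _ (norm_qq_lt hc hz2)
        _ = C * (1 + z.im) ^ K * D * ‖qq z‖ * ((‖qq z‖ ^ m)⁻¹ * ‖qq z‖ ^ m) := by
            rw [pow_succ]; ring
        _ = C * (1 + z.im) ^ K * D * ‖qq z‖ := by rw [inv_mul_cancel₀ hqm.ne', mul_one]
    have hy1 : 0 ≤ (1 + z.im) ^ K := by positivity
    have hen' : ‖e‖ ≤ C * (1 + z.im) ^ K * D :=
      hen.trans (mul_le_of_le_one_right (by positivity) hqn)
    -- coordinates
    have hcoord : ∀ j : κ, ∃ A : ℝ, ϑ * x j (T g) = (A : ℂ) - x j e ∧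
        |A| ≤ ‖x j‖ * (C * (1 + z.im) ^ K * (‖g‖ + D)) := by
      intro j
      have h1 := hv2 j
      refine ⟨(x j (ϑ • T g + e)).re, ?_, ?_⟩
      · have h2 : (((x j (ϑ • T g + e)).re : ℝ) : ℂ) = x j (ϑ • T g + e) :=
          Complex.ext rfl (by simpa using h1.symm)
        rw [h2, map_add, map_smul, smul_eq_mul]
        ring
      · calc |(x j (ϑ • T g + e)).re| ≤ ‖x j (ϑ • T g + e)‖ := Complex.abs_re_le_norm _
          _ ≤ ‖x j‖ * ‖ϑ • T g + e‖ := (x j).le_opNorm _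
          _ ≤ ‖x j‖ * (‖ϑ • T g‖ + ‖e‖) := by gcongr; exact norm_add_le _ _
          _ ≤ ‖x j‖ * (C * (1 + z.im) ^ K * ‖g‖ + C * (1 + z.im) ^ K * D) := by
              gcongr
              rw [norm_smul, hϑn, one_mul]
              exact hTg
          _ = ‖x j‖ * (C * (1 + z.im) ^ K * (‖g‖ + D)) := by ring
    obtain ⟨A, hA, hA2⟩ := hcoord k
    obtain ⟨B, hB, hB2⟩ := hcoord l
    have hϑ1 : ϑ * conj ϑ = 1 := by
      rw [Complex.mul_conj, Complex.normSq_eq_norm_sq, hϑn]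
      norm_num
    have h1 : x k (T g) * conj (x l (T g)) = ((A : ℂ) - x k e) * ((B : ℂ) - conj (x l e)) := by
      calc x k (T g) * conj (x l (T g)) = (ϑ * conj ϑ) * (x k (T g) * conj (x l (T g))) := by
            rw [hϑ1, one_mul]
        _ = (ϑ * x k (T g)) * conj (ϑ * x l (T g)) := by
            rw [show conj (ϑ * x l (T g)) = conj ϑ * conj (x l (T g)) from map_mul _ _ _]
            ring
        _ = ((A : ℂ) - x k e) * ((B : ℂ) - conj (x l e)) := by
            rw [hA, hB, map_sub, Complex.conj_ofReal]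
    have h2 : (((A : ℂ) - x k e) * ((B : ℂ) - conj (x l e))).im
        = (-((A : ℂ) * conj (x l e)) - x k e * (B : ℂ) + x k e * conj (x l e)).im := by
      have : ((A : ℂ) - x k e) * ((B : ℂ) - conj (x l e)) = ((A * B : ℝ) : ℂ) +
        (-((A : ℂ) * conj (x l e)) - x k e * (B : ℂ) + x k e * conj (x l e)) := by
        push_cast; ring
      rw [this, Complex.add_im, Complex.ofReal_im, zero_add]
    rw [h1, h2]
    have hek : ‖x k e‖ ≤ ‖x k‖ * (C * (1 + z.im) ^ K * D * ‖qq z‖) :=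
      ((x k).le_opNorm e).trans (by gcongr)
    have hel : ‖x l e‖ ≤ ‖x l‖ * (C * (1 + z.im) ^ K * D * ‖qq z‖) :=
      ((x l).le_opNorm e).trans (by gcongr)
    have hel' : ‖x l e‖ ≤ ‖x l‖ * (C * (1 + z.im) ^ K * D) :=
      ((x l).le_opNorm e).trans (by gcongr)
    calc |(-((A : ℂ) * conj (x l e)) - x k e * (B : ℂ) + x k e * conj (x l e)).im|
        ≤ ‖-((A : ℂ) * conj (x l e)) - x k e * (B : ℂ) + x k e * conj (x l e)‖ :=
          Complex.abs_im_le_norm _
      _ ≤ ‖-((A : ℂ) * conj (x l e)) - x k e * (B : ℂ)‖ + ‖x k e * conj (x l e)‖ :=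
          norm_add_le _ _
      _ ≤ ‖-((A : ℂ) * conj (x l e))‖ + ‖x k e * (B : ℂ)‖ + ‖x k e * conj (x l e)‖ := by
          gcongr; exact norm_sub_le _ _
      _ = |A| * ‖x l e‖ + ‖x k e‖ * |B| + ‖x k e‖ * ‖x l e‖ := by
          simp only [norm_neg, norm_mul, Complex.norm_real, Complex.norm_conj, Real.norm_eq_abs]
      _ ≤ (‖x k‖ * (C * (1 + z.im) ^ K * (‖g‖ + D))) *
            (‖x l‖ * (C * (1 + z.im) ^ K * D * ‖qq z‖)) +
          (‖x k‖ * (C * (1 + z.im) ^ K * D * ‖qq z‖)) *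
            (‖x l‖ * (C * (1 + z.im) ^ K * (‖g‖ + D))) +
          (‖x k‖ * (C * (1 + z.im) ^ K * D * ‖qq z‖)) *
            (‖x l‖ * (C * (1 + z.im) ^ K * D)) := by gcongr
      _ = ‖x k‖ * ‖x l‖ * C ^ 2 * (2 * (‖g‖ + D) * D + D ^ 2) * (1 + z.im) ^ (2 * K) *
            Real.exp (-(2 * Real.pi * z.im)) := by
          rw [norm_qq, mul_comm 2 K, pow_mul]; ring
  -- conclusion
  have hg0 : g ≠ 0 := by
    intro h
    exact hlim 0 IsRe.zero (map_zero N) 0 (by rw [h, smul_zero])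
  obtain ⟨k₀, hk₀⟩ : ∃ k₀, x k₀ g ≠ 0 := by
    by_contra hall
    push Not at hall
    exact hg0 (hx g hall)
  -- the curve `s(y) = conj (x₀(G)) G` is real
  have hcurve : ∀ y : ℝ, IsRe x (conj (x k₀ (ex N (y * Complex.I) g)) •
      ex N (y * Complex.I) g) := by
    intro y k
    rw [map_smul, smul_eq_mul, mul_comm]
    exact hprod k k₀ y
  have hdG : HasDerivAt (fun y : ℝ => ex N (y * Complex.I) g)
      (Complex.I • N g) 0 := by
    have h1 := hasDerivAt_comp_I (hasDerivAt_ex_apply N ((0 : ℝ) * Complex.I) g)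
    simpa [ex_zero] using h1
  have hdx : HasDerivAt (fun y : ℝ => conj (x k₀ (ex N (y * Complex.I) g)))
      (conj (x k₀ (Complex.I • N g))) 0 := by
    have h1 : HasDerivAt (fun y : ℝ => x k₀ (ex N (y * Complex.I) g))
        (x k₀ (Complex.I • N g)) 0 := by
      have := ((x k₀).restrictScalars ℝ).hasFDerivAt.comp_hasDerivAt 0 hdG
      exact this
    exact h1.star
  have hds := hdx.smul hdG
  have hres := isRe_deriv hcurve hds
  simp only [Complex.ofReal_zero, zero_mul, ex_zero, ContinuousLinearMap.one_apply] at hres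
  have hcurve0 := hcurve 0
  simp only [Complex.ofReal_zero, zero_mul, ex_zero, ContinuousLinearMap.one_apply] at hcurve0
  -- put `r = g / x₀(g)`
  obtain ⟨α, hα⟩ : ∃ α : ℂ, α = x k₀ g := ⟨_, rfl⟩
  rw [← hα] at hk₀ hres hcurve0
  have hnα : (0 : ℝ) < Complex.normSq α := Complex.normSq_pos.mpr hk₀
  obtain ⟨r, hr⟩ : ∃ r : E, r = α⁻¹ • g := ⟨_, rfl⟩
  have hrre : IsRe x r := by
    have h1 := hcurve0.smul_real ((Complex.normSq α)⁻¹)
    rw [smul_smul] at h1
    have h2 : (((Complex.normSq α)⁻¹ : ℝ) : ℂ) * conj α = α⁻¹ := by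
      rw [Complex.inv_def, mul_comm]
    rw [h2, ← hr] at h1
    exact h1
  have hgr : g = α • r := by
    rw [hr, smul_smul, mul_inv_cancel₀ hk₀, one_smul]
  have hxr : x k₀ r = 1 := by
    rw [hr, map_smul, smul_eq_mul, ← hα, inv_mul_cancel₀ hk₀]
  have hNr : IsRe x (N r) := hN r hrre
  obtain ⟨μ, hμ⟩ : ∃ μ : ℂ, μ = x k₀ (N r) := ⟨_, rfl⟩
  have hμre : μ.im = 0 := by rw [hμ]; exact hNr k₀
  have hμc : conj μ = μ := Complex.conj_eq_iff_im.mpr hμre
  have hNg : N g = α • N r := by rw [hgr, map_smul]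
  have hkey : conj α • Complex.I • N g + conj (x k₀ (Complex.I • N g)) • g
      = ((Complex.normSq α : ℝ) : ℂ) • (Complex.I • (N r - μ • r)) := by
    have hval : x k₀ (Complex.I • N g) = Complex.I * (α * μ) := by
      rw [ContinuousLinearMap.map_smul, hNg, ContinuousLinearMap.map_smul, ← hμ]
      rfl
    rw [hval, hNg]
    simp only [map_mul, Complex.conj_I, hμc]
    conv_lhs => rw [hgr]
    rw [Complex.normSq_eq_conj_mul_self]
    simp only [smul_smul, smul_sub]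
    rw [sub_eq_add_neg, ← neg_smul]
    congr 2 <;> ring
  rw [hkey] at hres
  have hres2 : IsRe x (Complex.I • (N r - μ • r)) := by
    have h1 := hres.smul_real ((Complex.normSq α)⁻¹)
    rw [smul_smul, ← Complex.ofReal_mul, inv_mul_cancel₀ hnα.ne', Complex.ofReal_one,
      one_smul] at h1
    exact h1
  have hdiff : N r - μ • r = 0 :=
    eq_zero_of_isRe hx (hNr.sub (hrre.smul hμre)) hres2
  have hNr2 : N r = μ • r := sub_eq_zero.mp hdiff
  have hpow : ∀ j : ℕ, (N ^ j) r = μ ^ j • r := by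
    intro j
    induction j with
    | zero => simp
    | succ j ih =>
      rw [pow_succ, ContinuousLinearMap.mul_apply, hNr2, map_smul, ih, smul_smul, pow_succ,
        mul_comm]
  have hr0 : r ≠ 0 := by
    intro h
    rw [h, map_zero] at hxr
    exact zero_ne_one hxr
  have hμ0 : μ = 0 := by
    have h1 := hpow K
    rw [hK] at h1
    have h2 : μ ^ K • r = 0 := by rw [← h1]; simp
    rcases smul_eq_zero.mp h2 with h3 | h3
    · exact pow_eq_zero_iff hK0 |>.mp h3
    · exact absurd h3 hr0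
  exact hlim r hrre (by rw [hNr2, hμ0, zero_smul]) α hgr

end Pool.Agent.Y92.RS
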