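import Mathlib

/-!
# Extensions of `ℚ(0)` by `H¹(E)(2)` over a curve: definitions

Let `X` be a compact Riemann surface, `D ⊂ X` the set of punctures, and `V` an admissible
variation of mixed Hodge structure over `X ∖ D` with `Gr^W V = ℚ(0) ⊕ H¹(2)`, where `H¹` is a
polarized variation of weight one and rank two (`H¹ = H¹(E)` for a family of elliptic curves).

In a rational basis, the Hodge structure `H¹` at a point is given by the line
`F¹ = ℂ · (1, τ) ⊂ ℂ²` with `Im τ > 0`.  As `F⁰ (H¹(2)) = 0`, the extension class is a vector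
`ν = (a, b) ∈ ℂ²`, well defined up to `ℚ²` and the choice of the basis of `H¹`.
Griffiths transversality says `dν ∈ F¹ ⊗ Ω¹`, that is `da = f du`, `db = τ f du`.
-/

namespace Pool.Agent.Y92.Ell

open Metric

/-- `q = exp (2 π i z)` -/
noncomputable def qexp (z : ℂ) : ℂ := Complex.exp (2 * Real.pi * Complex.I * z)

/-- Period data of `V` over a small disc in the base. -/
structure DiscChart where
  /-- the radius of the disc -/
  r : ℝ
  r_pos : 0 < r
  /-- the period of `H¹` -/
  τ : ℂ → ℂ
  τ_holo : DifferentiableOn ℂ τ (ball 0 r)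
  τ_im : ∀ u ∈ ball (0 : ℂ) r, 0 < (τ u).im
  /-- the derivative of `a` -/
  f : ℂ → ℂ
  f_holo : DifferentiableOn ℂ f (ball 0 r)
  /-- first coordinate of the extension class -/
  a : ℂ → ℂ
  /-- second coordinate of the extension class -/
  b : ℂ → ℂ
  a_deriv : ∀ u ∈ ball (0 : ℂ) r, HasDerivAt a (f u) u
  b_deriv : ∀ u ∈ ball (0 : ℂ) r, HasDerivAt b (τ u * f u) u

/-- Period data of `V` near a puncture.  The local parameter of the base is `s ^ e` with
`s = exp (2 π i z)`, `z` in a half plane, where `e` is chosen such that the monodromy around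
`s = 0` is unipotent.  The period is `τ = N z + t(s)` with `t` holomorphic at `s = 0`, and
admissibility of `V` says that `da = f(s) dz` with `f` holomorphic at `s = 0`. -/
structure CuspChart where
  /-- ramification index -/
  e : ℕ
  e_pos : 0 < e
  /-- the radius of the disc of the variable `s` -/
  r : ℝ
  r_pos : 0 < r
  /-- logarithm of the local monodromy of `H¹` -/
  N : ℚ
  /-- `τ = N z + t(s)` -/
  t : ℂ → ℂ
  t_holo : DifferentiableOn ℂ t (ball 0 r)
  τ_im : ∀ z, qexp z ∈ ball (0 : ℂ) r → 0 < (N * z + t (qexp z)).im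
  /-- the derivative of `a` -/
  f : ℂ → ℂ
  f_holo : DifferentiableOn ℂ f (ball 0 r)
  /-- first coordinate of the extension class -/
  a : ℂ → ℂ
  /-- second coordinate of the extension class -/
  b : ℂ → ℂ
  a_deriv : ∀ z, qexp z ∈ ball (0 : ℂ) r → HasDerivAt a (f (qexp z)) z
  b_deriv : ∀ z, qexp z ∈ ball (0 : ℂ) r →
    HasDerivAt b ((N * z + t (qexp z)) * f (qexp z)) z
  /-- monodromy `z ↦ z + 1`, in the rational affine group -/
  monodromy : ∀ z, qexp z ∈ ball (0 : ℂ) r → ∃ w₀ w₁ : ℚ,
    a (z + 1) = a z + w₀ ∧ b (z + 1) = b z + N * a z + w₁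

/-- the point with local parameter `u` in the preferred chart centred at `p` -/
noncomputable def point {X : Type*} [TopologicalSpace X] [ChartedSpace ℂ X] (p : X) (u : ℂ) : X :=
  (chartAt ℂ p).symm (chartAt ℂ p p + u)

/-- `(τ, a, b)` is the value at `x` of one branch of the period map. -/
def HasPeriod {X : Type*} [TopologicalSpace X] [ChartedSpace ℂ X] (D : Set X)
    (disc : X → DiscChart) (cusp : X → CuspChart) (x : X) (τ a b : ℂ) : Prop :=
  (∃ p ∉ D, ∃ u ∈ ball (0 : ℂ) (disc p).r,
    point p u = x ∧ (disc p).τ u = τ ∧ (disc p).a u = a ∧ (disc p).b u = b) ∨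
  (∃ p ∈ D, ∃ z : ℂ, qexp z ∈ ball (0 : ℂ) (cusp p).r ∧ point p ((qexp z) ^ (cusp p).e) = x ∧
    (cusp p).N * z + (cusp p).t (qexp z) = τ ∧ (cusp p).a z = a ∧ (cusp p).b z = b)

/-- The triples `(τ, a, b)` and `(τ', a', b')` differ by a change of the rational basis:
`γ ∈ GL₂(ℚ)` maps the line `ℂ(1, τ)` to `ℂ(1, τ')`, and `(a', b') = γ (a, b) + w` with `w`
rational. -/
def Related (τ a b τ' a' b' : ℂ) : Prop :=
  ∃ γ : Matrix (Fin 2) (Fin 2) ℚ, γ.det ≠ 0 ∧
    τ' * (γ 0 0 + γ 0 1 * τ) = γ 1 0 + γ 1 1 * τ ∧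
    ∃ w₀ w₁ : ℚ, a' = γ 0 0 * a + γ 0 1 * b + w₀ ∧ b' = γ 1 0 * a + γ 1 1 * b + w₁

/-- An admissible variation `V` over `X ∖ D` with `Gr^W V = ℚ(0) ⊕ H¹(2)`, `H¹` of rank two,
given by its local period data. -/
structure Variation (X : Type*) [TopologicalSpace X] [ChartedSpace ℂ X] (D : Set X) where
  /-- period data at the points of `X ∖ D` -/
  disc : X → DiscChart
  /-- period data at the punctures -/
  cusp : X → CuspChart
  disc_dom : ∀ p ∉ D, ∀ u ∈ ball (0 : ℂ) (disc p).r,
    chartAt ℂ p p + u ∈ (chartAt ℂ p).target ∧ point p u ∉ D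
  cusp_dom : ∀ p ∈ D, ∀ s ∈ ball (0 : ℂ) (cusp p).r,
    chartAt ℂ p p + s ^ (cusp p).e ∈ (chartAt ℂ p).target ∧
      (s ≠ 0 → point p (s ^ (cusp p).e) ∉ D)
  compat : ∀ x τ a b τ' a' b', HasPeriod D disc cusp x τ a b → HasPeriod D disc cusp x τ' a' b' →
    Related τ a b τ' a' b'

/-! ### Mumford-Tate groups of the fibres -/

/-- The complexification in `ℂ²` of a rational subspace of `ℚ²`. -/
def cplx (W : Submodule ℚ (Fin 2 → ℚ)) : Submodule ℂ (Fin 2 → ℂ) :=
  Submodule.span ℂ {v | ∃ w ∈ W, v = fun i => ((w i : ℚ) : ℂ)}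

/-- The line `ℂ (1, τ)`. -/
def line (τ : ℂ) : Submodule ℂ (Fin 2 → ℂ) := Submodule.span ℂ {![1, τ]}

/-- A rational subspace of `ℚ² = H¹` is a sub-Hodge structure when its complexification is the
sum of its intersections with `F¹ = ℂ(1, τ)` and with the conjugate line. -/
def IsSubHS (τ : ℂ) (W : Submodule ℚ (Fin 2 → ℚ)) : Prop :=
  cplx W = (cplx W ⊓ line τ) ⊔ (cplx W ⊓ line (starRingEnd ℂ τ))

/-- The unipotent radical of the Mumford-Tate group of the mixed Hodge structure with periods
`(τ, a, b)`: the smallest sub-Hodge structure `U` of `H¹(2)` such that `(a, b)` is rational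
modulo `U_ℂ`. -/
def unipPart (τ a b : ℂ) : Submodule ℚ (Fin 2 → ℚ) :=
  sInf {W | IsSubHS τ W ∧ ∃ h : Fin 2 → ℚ, (![a - h 0, b - h 1] : Fin 2 → ℂ) ∈ cplx W}

/-- The Hodge structure with period `τ` has complex multiplication. -/
def IsCM (τ : ℂ) : Prop := ∃ a b c : ℤ, a ≠ 0 ∧ (a : ℂ) * τ ^ 2 + b * τ + c = 0

open Classical in
/-- The dimension of the Mumford-Tate domain of the mixed Hodge structure with periods
`(τ, a, b)`.  It is `dim_ℚ U` in the CM case and `1 + dim_ℚ U` otherwise, `U` being the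
unipotent radical of the Mumford-Tate group. -/
noncomputable def domDim (τ a b : ℂ) : ℕ :=
  (if IsCM τ then 0 else 1) + Module.finrank ℚ (unipPart τ a b)

variable {X : Type*} [TopologicalSpace X] [ChartedSpace ℂ X] {D : Set X}

/-- The extension `0 → H¹(2) → V_x → ℚ(0) → 0` is split (its class is torsion). -/
def Variation.IsSplit (V : Variation X D) (x : X) : Prop :=
  ∃ τ a b, HasPeriod D V.disc V.cusp x τ a b ∧ (∃ s : ℚ, a = s) ∧ ∃ t : ℚ, b = t

/-- The dimension of the generic Mumford-Tate domain of `V`: the maximum of the dimensions of the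
Mumford-Tate domains of the fibres. -/
noncomputable def Variation.genDim (V : Variation X D) : ℕ :=
  sSup {d | ∃ x, x ∉ D ∧ ∃ τ a b, HasPeriod D V.disc V.cusp x τ a b ∧ domDim τ a b = d}

/-- The point `x` is special: the Mumford-Tate domain of `V_x` is smaller than the generic one. -/
def Variation.IsSpecial (V : Variation X D) (x : X) : Prop :=
  x ∉ D ∧ ∃ τ a b, HasPeriod D V.disc V.cusp x τ a b ∧ domDim τ a b < V.genDim

/-- The special point `x` is atypical: its codimension in the (one-dimensional) image of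
`X ∖ D` under the period map, which is one, differs from the codimension of its Mumford-Tate
domain in the generic one. -/
def Variation.IsAtypical (V : Variation X D) (x : X) : Prop :=
  x ∉ D ∧ ∃ τ a b, HasPeriod D V.disc V.cusp x τ a b ∧ domDim τ a b < V.genDim ∧
    V.genDim - domDim τ a b ≠ 1

end Pool.Agent.Y92.Ell
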