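import Pool.Agent.Y92.RS.EllDefs
import Pool.Agent.Y92.RS.Global

/-!
# Extensions of `ℚ(0)` by `H¹(E)(2)` over a curve: proofs
-/

namespace Pool.Agent.Y92.Ell

open Filter Metric Set Pool.Agent.Y92.RS
open scoped Topology ComplexConjugate

theorem qexp_eq : qexp = qq := rfl

/-- put `(a, b)` into the coordinates `Fin 1 ⊕ Fin 1` -/
def pr (a b : ℂ) : Fin 1 ⊕ Fin 1 → ℂ := Sum.elim (fun _ => a) (fun _ => b)

theorem hasDerivAt_pr {a b : ℂ → ℂ} {a' b' z : ℂ} (ha : HasDerivAt a a' z)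
    (hb : HasDerivAt b b' z) : HasDerivAt (fun z => pr (a z) (b z)) (pr a' b') z := by
  rw [hasDerivAt_pi]
  intro k
  rcases k with k | k
  · exact ha
  · exact hb

theorem DiscChart.dichotomy (c : DiscChart) :
    (∃ ε > 0, ε ≤ c.r ∧ ∀ u : ℂ, u ≠ 0 → ‖u‖ < ε → ¬ ((c.a u).im = 0 ∧ (c.b u).im = 0)) ∨
    (∃ ε > 0, ε ≤ c.r ∧ ∃ a₀ b₀, ∀ u : ℂ, ‖u‖ < ε → c.a u = a₀ ∧ c.b u = b₀) := by
  by_cases h : ∀ᶠ u in 𝓝 (0 : ℂ), c.f u = 0
  · right
    obtain ⟨δ, hδ, hδ2⟩ := Metric.eventually_nhds_iff_ball.mp h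
    have hder : ∀ u ∈ ball (0 : ℂ) (min δ c.r), HasDerivAt c.a 0 u ∧ HasDerivAt c.b 0 u := by
      intro u hu
      have hu1 : u ∈ ball (0 : ℂ) δ := ball_subset_ball (min_le_left _ _) hu
      have hu2 : u ∈ ball (0 : ℂ) c.r := ball_subset_ball (min_le_right _ _) hu
      refine ⟨(c.a_deriv u hu2).congr_deriv (hδ2 u hu1), (c.b_deriv u hu2).congr_deriv ?_⟩
      rw [hδ2 u hu1, mul_zero]
    obtain ⟨a₀, ha₀⟩ := (isOpen_ball (x := (0 : ℂ)) (ε := min δ c.r)).exists_is_const_of_deriv_eq_zero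
      (convex_ball (0 : ℂ) (min δ c.r)).isPreconnected
      (fun z hz => (hder z hz).1.differentiableAt.differentiableWithinAt)
      (fun z hz => (hder z hz).1.deriv)
    obtain ⟨b₀, hb₀⟩ := (isOpen_ball (x := (0 : ℂ)) (ε := min δ c.r)).exists_is_const_of_deriv_eq_zero
      (convex_ball (0 : ℂ) (min δ c.r)).isPreconnected
      (fun z hz => (hder z hz).2.differentiableAt.differentiableWithinAt)
      (fun z hz => (hder z hz).2.deriv)
    refine ⟨min δ c.r, lt_min hδ c.r_pos, min_le_right _ _, a₀, b₀, fun u hu => ?_⟩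
    have hu' : u ∈ ball (0 : ℂ) (min δ c.r) := by rwa [mem_ball_zero_iff]
    exact ⟨ha₀ u hu', hb₀ u hu'⟩
  · left
    have hp0 : ¬ ∀ᶠ q in 𝓝 (0 : ℂ), (fun (_ : Fin 1) => c.f q) = 0 := by
      intro h1
      apply h
      filter_upwards [h1] with q hq
      exact congrFun hq 0
    obtain ⟨ε, hε, hmain⟩ := pair_disc (g := 1) c.r_pos (fun u => fun _ _ => c.τ u)
      (fun _ _ => c.τ_holo) (fun u => fun _ => c.f u)
      (by rw [differentiableOn_pi]; exact fun _ => c.f_holo) hp0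
      (fun u => pr (c.a u) (c.b u))
      (fun u hu => by
        refine (hasDerivAt_pr (c.a_deriv u hu) (c.b_deriv u hu)).congr_deriv ?_
        ext k
        rcases k with k | k
        · rfl
        · simp [pr])
      (fun r hr => by
        have h1 := hr 0
        simp only [Finset.univ_unique, Fin.default_eq_zero, Finset.sum_singleton] at h1
        have h2 : r 0 = 0 := by
          rcases mul_eq_zero.mp h1 with h3 | h3
          · exact absurd h3 (c.τ_im 0 (mem_ball_self c.r_pos)).ne'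
          · exact h3
        funext k
        have : k = 0 := Subsingleton.elim _ _
        rw [this, h2]
        rfl)
    refine ⟨min ε c.r, lt_min hε c.r_pos, min_le_right _ _, fun u hu hlt hre => ?_⟩
    refine hmain u hu (lt_of_lt_of_le hlt (min_le_left _ _)) (fun k => ?_)
    rcases k with k | k
    · exact hre.1
    · exact hre.2

theorem CuspChart.dichotomy (c : CuspChart) :
    (∃ y₁ : ℝ, ∀ z : ℂ, y₁ < z.im → ¬ ((c.a z).im = 0 ∧ (c.b z).im = 0)) ∨
    (∃ y₁ : ℝ, ∃ a₀ b₀, ∀ z : ℂ, y₁ < z.im → c.a z = a₀ ∧ c.b z = b₀) := by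
  by_cases h : ∀ᶠ u in 𝓝 (0 : ℂ), c.f u = 0
  · right
    obtain ⟨δ, hδ, hδ2⟩ := Metric.eventually_nhds_iff_ball.mp h
    obtain ⟨y, -, hy⟩ := exists_exp_le (lt_min hδ c.r_pos) 0
    have hder : ∀ z : ℂ, y < z.im → HasDerivAt c.a 0 z ∧ HasDerivAt c.b 0 z := by
      intro z hz
      have hq : qexp z ∈ ball (0 : ℂ) (min δ c.r) := norm_qq_lt hy hz
      have hu1 : qexp z ∈ ball (0 : ℂ) δ := ball_subset_ball (min_le_left _ _) hq
      have hu2 : qexp z ∈ ball (0 : ℂ) c.r := ball_subset_ball (min_le_right _ _) hq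
      refine ⟨(c.a_deriv z hu2).congr_deriv (hδ2 _ hu1), (c.b_deriv z hu2).congr_deriv ?_⟩
      rw [hδ2 _ hu1, mul_zero]
    obtain ⟨a₀, ha₀⟩ := const_on_halfPlane (fun z hz => (hder z hz).1)
    obtain ⟨b₀, hb₀⟩ := const_on_halfPlane (fun z hz => (hder z hz).2)
    exact ⟨y, a₀, b₀, fun z hz => ⟨ha₀ z hz, hb₀ z hz⟩⟩
  · left
    have hp0 : ¬ ∀ᶠ q in 𝓝 (0 : ℂ), (fun (_ : Fin 1) => c.f q) = 0 := by
      intro h1
      apply h
      filter_upwards [h1] with q hq
      exact congrFun hq 0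
    set NR : Matrix (Fin 1) (Fin 1) ℝ := fun _ _ => (c.N : ℝ) with hNR
    have hμ : ∀ z, qq z ∈ ball (0 : ℂ) c.r → HasDerivAt (fun z => pr (c.a z) (c.b z))
        (Sum.elim (fun _ : Fin 1 => c.f (qq z)) (fun b => ∑ a : Fin 1,
          (z * ((NR b a : ℝ) : ℂ) + c.t (qq z)) * c.f (qq z))) z := by
      intro z hz
      refine (hasDerivAt_pr (c.a_deriv z hz) (c.b_deriv z hz)).congr_deriv ?_
      ext k
      rcases k with k | k
      · rfl
      · simp [pr, hNR, qexp_eq, mul_comm]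
    have hmon : ∀ z, qq z ∈ ball (0 : ℂ) c.r → ∀ k, (pr (c.a (z + 1)) (c.b (z + 1)) k -
        (pr (c.a z) (c.b z) k + nilOp NR (pr (c.a z) (c.b z)) k)).im = 0 := by
      intro z hz k
      obtain ⟨w₀, w₁, h0, h1⟩ := c.monodromy z hz
      rcases k with k | k
      · have : pr (c.a (z + 1)) (c.b (z + 1)) (Sum.inl k) -
            (pr (c.a z) (c.b z) (Sum.inl k) + nilOp NR (pr (c.a z) (c.b z)) (Sum.inl k))
            = (w₀ : ℂ) := by
          rw [nilOp_inl]
          simp [pr, h0]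
        rw [this]
        exact Complex.ratCast_im _
      · have : pr (c.a (z + 1)) (c.b (z + 1)) (Sum.inr k) -
            (pr (c.a z) (c.b z) (Sum.inr k) + nilOp NR (pr (c.a z) (c.b z)) (Sum.inr k))
            = (w₁ : ℂ) := by
          rw [nilOp_inr]
          simp [pr, h1, hNR]
        rw [this]
        exact Complex.ratCast_im _
    have hsieg : ∀ z, qq z ∈ ball (0 : ℂ) c.r → ∀ r : Fin 1 → ℝ, r ≠ 0 →
        0 < ∑ b : Fin 1, ∑ a : Fin 1,
          r b * (z * ((NR b a : ℝ) : ℂ) + (fun _ _ => c.t (qq z) : Matrix (Fin 1) (Fin 1) ℂ) b a).im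
            * r a := by
      intro z hz r hr
      have h1 := c.τ_im z hz
      have hr0 : r 0 ≠ 0 := by
        intro h0
        apply hr
        funext k
        have : k = 0 := Subsingleton.elim _ _
        rw [this, h0]
        rfl
      have h2 : (z * ((NR 0 0 : ℝ) : ℂ) + c.t (qq z)).im = (c.N * z + c.t (qexp z)).im := by
        simp [hNR, qexp_eq, mul_comm]
      simp only [Finset.univ_unique, Fin.default_eq_zero, Finset.sum_singleton]
      rw [h2]
      have h3 : r 0 * (c.N * z + c.t (qexp z)).im * r 0 = (c.N * z + c.t (qexp z)).im * (r 0) ^ 2 := by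
        ring
      rw [h3]
      positivity
    have ht : ∀ a b : Fin 1, DifferentiableOn ℂ
        (fun q => (fun _ _ => c.t q : Matrix (Fin 1) (Fin 1) ℂ) a b) (ball 0 c.r) :=
      fun _ _ => c.t_holo
    obtain ⟨y₁, hmain⟩ := pair_cusp (g := 1) NR c.r_pos
      (fun q => (fun _ _ => c.t q : Matrix (Fin 1) (Fin 1) ℂ)) ht
      (fun u => fun _ => c.f u)
      (by rw [differentiableOn_pi]; exact fun _ => c.f_holo) hp0 _ hμ hmon
      (fun r h1 h2 => limit_pos NR c.r_pos _ ht hsieg r h1 h2)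
    refine ⟨y₁, fun z hz hre => hmain z hz (fun k => ?_)⟩
    rcases k with k | k
    · exact hre.1
    · exact hre.2

/-! ### The split locus -/

section

variable {X : Type*} [TopologicalSpace X] [ChartedSpace ℂ X] {D : Set X}

theorem point_eq : @point X _ _ = @pt X _ _ := rfl

theorem Variation.dense (V : Variation X D) : Dense Dᶜ := by
  intro p
  by_cases hp : p ∈ D
  · rw [mem_closure_iff_nhds]
    intro U hU
    have h1 : Tendsto (fun s : ℂ => pt p (s ^ (V.cusp p).e)) (𝓝 0) (𝓝 p) := by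
      refine (tendsto_pt p).comp ?_
      have : Tendsto (fun s : ℂ => s ^ (V.cusp p).e) (𝓝 0) (𝓝 (0 ^ (V.cusp p).e)) :=
        (continuous_pow _).tendsto 0
      rwa [zero_pow (V.cusp p).e_pos.ne'] at this
    have h2 : ∀ᶠ s in 𝓝[≠] (0 : ℂ), pt p (s ^ (V.cusp p).e) ∈ U := nhdsWithin_le_nhds (h1 hU)
    have h3 : ∀ᶠ s in 𝓝[≠] (0 : ℂ), s ∈ ball (0 : ℂ) (V.cusp p).r :=
      nhdsWithin_le_nhds (isOpen_ball.mem_nhds (mem_ball_self (V.cusp p).r_pos))
    obtain ⟨s, ⟨hs1, hs2⟩, hs3⟩ := ((h2.and h3).and self_mem_nhdsWithin).exists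
    exact ⟨_, hs1, (V.cusp_dom p hp s hs2).2 hs3⟩
  · exact subset_closure hp

/-- the set of points where some branch of the extension class satisfies `P` -/
def Variation.locus (V : Variation X D) (P : ℂ → ℂ → Prop) : Set X :=
  {x | x ∉ D ∧ ∃ τ a b, HasPeriod D V.disc V.cusp x τ a b ∧ P a b}

theorem Variation.mem_locus_iff (V : Variation X D) {P : ℂ → ℂ → Prop}
    (hP : ∀ τ a b τ' a' b', Related τ a b τ' a' b' → P a b → P a' b') {x : X} (hx : x ∉ D)
    {τ a b : ℂ} (h : HasPeriod D V.disc V.cusp x τ a b) :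
    x ∈ V.locus P ↔ P a b := by
  constructor
  · rintro ⟨-, τ', a', b', h', hP'⟩
    exact hP _ _ _ _ _ _ (V.compat x τ' a' b' τ a b h' h) hP'
  · intro hPν
    exact ⟨hx, τ, a, b, h, hPν⟩

theorem Variation.local_dichotomy (V : Variation X D)
    {P : ℂ → ℂ → Prop} (hP : ∀ τ a b τ' a' b', Related τ a b τ' a' b' → P a b → P a' b')
    (hPre : ∀ a b, P a b → a.im = 0 ∧ b.im = 0) (p : X) :
    ∃ U ∈ 𝓝 p, (∀ x ∈ U, x ≠ p → x ∉ V.locus P) ∨ (∀ x ∈ U, x ∉ D → x ∈ V.locus P) := by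
  by_cases hp : p ∈ D
  · have key : ∀ y₁ : ℝ, ∃ U ∈ 𝓝 p, ∀ x ∈ U, x ≠ p → x ∉ D ∧ ∃ z : ℂ, y₁ < z.im ∧
        HasPeriod D V.disc V.cusp x ((V.cusp p).N * z + (V.cusp p).t (qexp z))
          ((V.cusp p).a z) ((V.cusp p).b z) := by
      intro y₁
      set ε : ℝ := min (V.cusp p).r (Real.exp (-(2 * Real.pi * y₁))) with hε
      have hε0 : 0 < ε := lt_min (V.cusp p).r_pos (Real.exp_pos _)
      obtain ⟨U, hU, hU2⟩ := nhds_pt p (pow_pos hε0 (V.cusp p).e)
      refine ⟨U, hU, fun x hx hxp => ?_⟩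
      obtain ⟨u, hu, hux, hu0⟩ := hU2 x hx
      obtain ⟨s, hs⟩ : ∃ s : ℂ, s ^ (V.cusp p).e = u :=
        IsAlgClosed.exists_pow_nat_eq u (V.cusp p).e_pos
      have hs0 : s ≠ 0 := by
        intro h
        apply hu0 hxp
        rw [← hs, h, zero_pow (V.cusp p).e_pos.ne']
      have hsn : ‖s‖ < ε := by
        rw [← hs, norm_pow] at hu
        exact lt_of_pow_lt_pow_left₀ _ hε0.le hu
      obtain ⟨z, hz⟩ := exists_qq hs0
      have hsr : s ∈ ball (0 : ℂ) (V.cusp p).r := by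
        rw [mem_ball_zero_iff]
        exact lt_of_lt_of_le hsn (min_le_left _ _)
      refine ⟨?_, z, ?_, ?_⟩
      · rw [← hux, ← hs]
        exact (V.cusp_dom p hp s hsr).2 hs0
      · apply im_lt_of_norm_qq
        rw [hz]
        exact lt_of_lt_of_le hsn (min_le_right _ _)
      · right
        refine ⟨p, hp, z, ?_, ?_, rfl, rfl, rfl⟩
        · rw [qexp_eq, hz]; exact hsr
        · rw [qexp_eq, hz, hs, point_eq, hux]
    rcases (V.cusp p).dichotomy with ⟨y₁, hy⟩ | ⟨y₁, a₀, b₀, hy⟩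
    · obtain ⟨U, hU, hU2⟩ := key y₁
      refine ⟨U, hU, Or.inl fun x hx hxp hmem => ?_⟩
      obtain ⟨hxD, z, hz, hper⟩ := hU2 x hx hxp
      exact hy z hz (hPre _ _ ((V.mem_locus_iff hP hxD hper).mp hmem))
    · obtain ⟨U, hU, hU2⟩ := key y₁
      by_cases hPv : P a₀ b₀
      · refine ⟨U, hU, Or.inr fun x hx hxD => ?_⟩
        have hxp : x ≠ p := fun h => hxD (h ▸ hp)
        obtain ⟨_, z, hz, hper⟩ := hU2 x hx hxp
        rw [V.mem_locus_iff hP hxD hper, (hy z hz).1, (hy z hz).2]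
        exact hPv
      · refine ⟨U, hU, Or.inl fun x hx hxp hmem => ?_⟩
        obtain ⟨hxD, z, hz, hper⟩ := hU2 x hx hxp
        rw [V.mem_locus_iff hP hxD hper, (hy z hz).1, (hy z hz).2] at hmem
        exact hPv hmem
  · have key : ∀ ε > 0, ε ≤ (V.disc p).r → ∃ U ∈ 𝓝 p, ∀ x ∈ U, x ∉ D ∧ ∃ u : ℂ, ‖u‖ < ε ∧
        (x ≠ p → u ≠ 0) ∧
        HasPeriod D V.disc V.cusp x ((V.disc p).τ u) ((V.disc p).a u) ((V.disc p).b u) := by
      intro ε hε hεr
      obtain ⟨U, hU, hU2⟩ := nhds_pt p hε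
      refine ⟨U, hU, fun x hx => ?_⟩
      obtain ⟨u, hu, hux, hu0⟩ := hU2 x hx
      have hur : u ∈ ball (0 : ℂ) (V.disc p).r := by
        rw [mem_ball_zero_iff]
        exact lt_of_lt_of_le hu hεr
      refine ⟨?_, u, hu, hu0, ?_⟩
      · rw [← hux]
        exact (V.disc_dom p hp u hur).2
      · left
        exact ⟨p, hp, u, hur, hux, rfl, rfl, rfl⟩
    rcases (V.disc p).dichotomy with ⟨ε, hε, hεr, hy⟩ | ⟨ε, hε, hεr, a₀, b₀, hy⟩
    · obtain ⟨U, hU, hU2⟩ := key ε hε hεr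
      refine ⟨U, hU, Or.inl fun x hx hxp hmem => ?_⟩
      obtain ⟨hxD, u, hu, hu0, hper⟩ := hU2 x hx
      exact hy u (hu0 hxp) hu (hPre _ _ ((V.mem_locus_iff hP hxD hper).mp hmem))
    · obtain ⟨U, hU, hU2⟩ := key ε hε hεr
      by_cases hPv : P a₀ b₀
      · refine ⟨U, hU, Or.inr fun x hx hxD => ?_⟩
        obtain ⟨_, u, hu, _, hper⟩ := hU2 x hx
        rw [V.mem_locus_iff hP hxD hper, (hy u hu).1, (hy u hu).2]
        exact hPv
      · refine ⟨U, hU, Or.inl fun x hx hxp hmem => ?_⟩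
        obtain ⟨hxD, u, hu, _, hper⟩ := hU2 x hx
        rw [V.mem_locus_iff hP hxD hper, (hy u hu).1, (hy u hu).2] at hmem
        exact hPv hmem

/-- every period has positive imaginary part -/
theorem Variation.im_pos (V : Variation X D) {x : X} {τ a b : ℂ}
    (h : HasPeriod D V.disc V.cusp x τ a b) : 0 < τ.im := by
  rcases h with ⟨p, _, u, hu, _, rfl, _⟩ | ⟨p, _, z, hz, _, rfl, _⟩
  · exact (V.disc p).τ_im u hu
  · exact (V.cusp p).τ_im z hz

theorem Variation.isSplit_iff (V : Variation X D) (x : X) (hx : x ∉ D) :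
    V.IsSplit x ↔ x ∈ V.locus (fun a b => (∃ s : ℚ, a = s) ∧ ∃ t : ℚ, b = t) := by
  constructor
  · rintro ⟨τ, a, b, h, h2⟩
    exact ⟨hx, τ, a, b, h, h2⟩
  · rintro ⟨-, τ, a, b, h, h2⟩
    exact ⟨τ, a, b, h, h2⟩

/-- the split locus is finite or everything -/
theorem Variation.split_finite_or_all [CompactSpace X] [PreconnectedSpace X] [T1Space X]
    (V : Variation X D) : {x | x ∉ D ∧ V.IsSplit x}.Finite ∨ ∀ x ∉ D, V.IsSplit x := by
  have h := finite_or_all V.dense (V.local_dichotomy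
    (P := fun a b => (∃ s : ℚ, a = s) ∧ ∃ t : ℚ, b = t) ?_ ?_)
  · rcases h with h | h
    · left
      refine h.subset ?_
      rintro x ⟨hx, hs⟩
      exact (V.isSplit_iff x hx).mp hs
    · right
      intro x hx
      exact (V.isSplit_iff x hx).mpr (h x hx)
  · rintro τ a b τ' a' b' ⟨γ, -, -, w₀, w₁, ha, hb⟩ ⟨⟨s, rfl⟩, t, rfl⟩
    refine ⟨⟨γ 0 0 * s + γ 0 1 * t + w₀, ?_⟩, γ 1 0 * s + γ 1 1 * t + w₁, ?_⟩
    · rw [ha]; push_cast; rfl
    · rw [hb]; push_cast; rfl
  · rintro a b ⟨⟨s, rfl⟩, t, rfl⟩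
    exact ⟨Complex.ratCast_im s, Complex.ratCast_im t⟩

end

/-! ### Sub-Hodge structures of `H¹(E)` -/

/-- a sub-Hodge structure of `H¹(E)` is trivial -/
theorem subHS_trivial {τ : ℂ} (hτ : τ.im ≠ 0)
    {W : Submodule ℚ (Fin 2 → ℚ)} (hW : IsSubHS τ W) : W = ⊥ ∨ W = ⊤ := by
  by_contra hcon
  push Not at hcon
  obtain ⟨hbot, htop⟩ := hcon
  obtain ⟨f, hf0, hf⟩ := Submodule.exists_le_ker_of_lt_top W (lt_top_iff_ne_top.mpr htop)
  set α : ℚ := f ![1, 0] with hα
  set β : ℚ := f ![0, 1] with hβ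
  have hfc : ∀ w : Fin 2 → ℚ, f w = w 0 * α + w 1 * β := by
    intro w
    have : w = w 0 • ![1, 0] + w 1 • ![0, 1] := by
      funext i
      fin_cases i <;> simp
    conv_lhs => rw [this]
    rw [map_add, map_smul, map_smul, smul_eq_mul, smul_eq_mul]
  have hF : ∀ v ∈ cplx W, v 0 * ((α : ℚ) : ℂ) + v 1 * ((β : ℚ) : ℂ) = 0 := by
    intro v hv
    unfold cplx at hv
    induction hv using Submodule.span_induction with
    | mem v hv =>
      obtain ⟨w, hw, rfl⟩ := hv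
      have h1 : f w = 0 := hf hw
      rw [hfc] at h1
      have h2 := congrArg (fun t : ℚ => (t : ℂ)) h1
      push_cast at h2
      exact h2
    | zero => simp
    | add v w _ _ h1 h2 =>
      simp only [Pi.add_apply, add_mul]
      linear_combination h1 + h2
    | smul a v _ h1 =>
      simp only [Pi.smul_apply, smul_eq_mul]
      linear_combination a * h1
  have hαβ : α ≠ 0 ∨ β ≠ 0 := by
    by_contra h
    push Not at h
    apply hf0
    apply LinearMap.ext
    intro w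
    rw [hfc, h.1, h.2]
    simp
  have key : ∀ τ : ℂ, τ.im ≠ 0 → (α : ℂ) + τ * β ≠ 0 := by
    intro τ hτ h
    have h1 := congrArg Complex.im h
    have h2 : ((α : ℂ) + τ * β).im = τ.im * (β : ℝ) := by
      have hb : ((β : ℚ) : ℂ) = (((β : ℚ) : ℝ) : ℂ) := by push_cast; rfl
      rw [Complex.add_im, Complex.ratCast_im, zero_add, hb, Complex.im_mul_ofReal]
    rw [h2, Complex.zero_im] at h1
    have hβ0 : β = 0 := by
      rcases mul_eq_zero.mp h1 with h3 | h3
      · exact absurd h3 hτ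
      · exact_mod_cast h3
    have hα0 : α = 0 := by
      rw [hβ0] at h
      simpa using h
    rcases hαβ with h4 | h4
    · exact h4 hα0
    · exact h4 hβ0
  have hzero : ∀ τ : ℂ, τ.im ≠ 0 → cplx W ⊓ line τ = ⊥ := by
    intro τ hτ
    rw [Submodule.eq_bot_iff]
    rintro v ⟨hv1, hv2⟩
    have h1 := hF v hv1
    obtain ⟨d, rfl⟩ := Submodule.mem_span_singleton.mp hv2
    simp only [Pi.smul_apply, smul_eq_mul, Matrix.cons_val_zero, Matrix.cons_val_one,
      mul_one] at h1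
    have h2 : d * ((α : ℂ) + τ * β) = 0 := by rw [← h1]; ring
    rcases mul_eq_zero.mp h2 with h3 | h3
    · rw [h3, zero_smul]
    · exact absurd h3 (key _ hτ)
  apply hbot
  have h1 : cplx W = ⊥ := by
    rw [hW, hzero τ hτ, hzero _ (by rwa [Complex.conj_im, neg_ne_zero]), sup_bot_eq]
  rw [Submodule.eq_bot_iff]
  intro w hw
  have h2 : (fun i => ((w i : ℚ) : ℂ)) ∈ cplx W := Submodule.subset_span ⟨w, hw, rfl⟩
  rw [h1, Submodule.mem_bot] at h2
  funext i
  have h3 := congrFun h2 i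
  simpa using h3

theorem rational_of_finrank {τ a b : ℂ} (hτ : τ.im ≠ 0)
    (h : Module.finrank ℚ (unipPart τ a b) < 2) : (∃ s : ℚ, a = s) ∧ ∃ t : ℚ, b = t := by
  by_cases hbot : ∃ h : Fin 2 → ℚ, (![a - h 0, b - h 1] : Fin 2 → ℂ) ∈ cplx ⊥
  · obtain ⟨w, hw⟩ := hbot
    have h1 : cplx (⊥ : Submodule ℚ (Fin 2 → ℚ)) = ⊥ := by
      unfold cplx
      rw [Submodule.span_eq_bot]
      rintro v ⟨w, hw, rfl⟩
      rw [Submodule.mem_bot] at hw
      funext i
      simp [hw]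
    rw [h1, Submodule.mem_bot] at hw
    have h2 := congrFun hw 0
    have h3 := congrFun hw 1
    simp only [Matrix.cons_val_zero, Matrix.cons_val_one, Pi.zero_apply] at h2 h3
    exact ⟨⟨w 0, sub_eq_zero.mp h2⟩, w 1, sub_eq_zero.mp h3⟩
  · exfalso
    have htop : unipPart τ a b = ⊤ := by
      unfold unipPart
      rw [sInf_eq_top]
      rintro W ⟨hW, hW2⟩
      rcases subHS_trivial hτ hW with rfl | rfl
      · exact absurd hW2 hbot
      · rfl
    rw [htop, finrank_top, Module.finrank_fin_fun] at h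
    omega

theorem finrank_unipPart_le (τ a b : ℂ) : Module.finrank ℚ (unipPart τ a b) ≤ 2 := by
  have h := Submodule.finrank_le (unipPart τ a b)
  rwa [Module.finrank_fin_fun] at h

theorem domDim_le (τ a b : ℂ) : domDim τ a b ≤ 3 := by
  have h := finrank_unipPart_le τ a b
  unfold domDim
  split_ifs <;> omega

theorem unipPart_of_rational {τ a b : ℂ} (ha : ∃ s : ℚ, a = s) (hb : ∃ t : ℚ, b = t) :
    Module.finrank ℚ (unipPart τ a b) = 0 := by
  obtain ⟨s, rfl⟩ := ha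
  obtain ⟨t, rfl⟩ := hb
  have h1 : cplx (⊥ : Submodule ℚ (Fin 2 → ℚ)) = ⊥ := by
    unfold cplx
    rw [Submodule.span_eq_bot]
    rintro v ⟨w, hw, rfl⟩
    rw [Submodule.mem_bot] at hw
    funext i
    simp [hw]
  have h2 : unipPart τ s t = ⊥ := by
    unfold unipPart
    rw [eq_bot_iff]
    refine sInf_le ⟨?_, ![s, t], ?_⟩
    · unfold IsSubHS
      rw [h1]
      simp
    · have h3 : (![(s : ℂ) - ((![s, t] : Fin 2 → ℚ) 0 : ℚ),
          (t : ℂ) - ((![s, t] : Fin 2 → ℚ) 1 : ℚ)] : Fin 2 → ℂ) = 0 := by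
        funext i
        fin_cases i <;> simp
      rw [h3]
      exact Submodule.zero_mem _
  rw [h2, finrank_bot]

section

variable {X : Type*} [TopologicalSpace X] [ChartedSpace ℂ X] {D : Set X}

theorem Variation.genDim_le_of (V : Variation X D) {m : ℕ}
    (h : ∀ x, x ∉ D → ∀ τ a b, HasPeriod D V.disc V.cusp x τ a b → domDim τ a b ≤ m) :
    V.genDim ≤ m := by
  unfold Variation.genDim
  refine csSup_le' ?_
  rintro d ⟨x, hx, τ, a, b, hper, rfl⟩
  exact h x hx τ a b hper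

/-- **Finiteness of the atypical locus.** -/
theorem Variation.atypical_finite [CompactSpace X] [PreconnectedSpace X] [T1Space X]
    (V : Variation X D) : {x | V.IsAtypical x}.Finite := by
  rcases V.split_finite_or_all with h | h
  · refine h.subset ?_
    rintro x ⟨hx, τ, a, b, hper, h3, h1⟩
    refine ⟨hx, τ, a, b, hper, ?_⟩
    apply rational_of_finrank (V.im_pos hper).ne'
    have h4 : V.genDim ≤ 3 := V.genDim_le_of fun _ _ τ a b _ => domDim_le τ a b
    have h2 : domDim τ a b < 2 := by omega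
    unfold domDim at h2
    omega
  · have h4 : V.genDim ≤ 1 := by
      refine V.genDim_le_of fun x hx τ a b hper => ?_
      obtain ⟨τ', a', b', hper', ha', hb'⟩ := h x hx
      obtain ⟨γ, -, -, w₀, w₁, ha, hb⟩ := V.compat x _ _ _ _ _ _ hper' hper
      obtain ⟨s, rfl⟩ := ha'
      obtain ⟨t, rfl⟩ := hb'
      have h5 : Module.finrank ℚ (unipPart τ a b) = 0 := by
        apply unipPart_of_rational
        · exact ⟨γ 0 0 * s + γ 0 1 * t + w₀, by rw [ha]; push_cast; rfl⟩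
        · exact ⟨γ 1 0 * s + γ 1 1 * t + w₁, by rw [hb]; push_cast; rfl⟩
      unfold domDim
      rw [h5]
      split_ifs <;> omega
    have h6 : {x | V.IsAtypical x} = ∅ := by
      rw [Set.eq_empty_iff_forall_notMem]
      rintro x ⟨hx, τ, a, b, hper, h3, h1⟩
      omega
    rw [h6]
    exact Set.finite_empty

end

end Pool.Agent.Y92.Ell
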