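import Pool.Agent.Y92.RS.Poly

/-!
# Exponentials of nilpotent operators on a complex vector space with real coordinates
-/

namespace Pool.Agent.Y92.RS

open Filter Asymptotics Finset
open scoped Topology ComplexConjugate Nat

variable {E : Type*} [NormedAddCommGroup E] [NormedSpace ℂ E] {κ : Type*}

/-- the vector has real coordinates -/
def IsRe (x : κ → E →L[ℂ] ℂ) (v : E) : Prop := ∀ k, (x k v).im = 0

variable {x : κ → E →L[ℂ] ℂ}

theorem IsRe.zero : IsRe x 0 := fun _ => by simp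

theorem IsRe.add {v w : E} (hv : IsRe x v) (hw : IsRe x w) : IsRe x (v + w) := fun k => by
  simp [hv k, hw k]

theorem IsRe.neg {v : E} (hv : IsRe x v) : IsRe x (-v) := fun k => by simp [hv k]

theorem IsRe.sub {v w : E} (hv : IsRe x v) (hw : IsRe x w) : IsRe x (v - w) := fun k => by
  simp [hv k, hw k]

theorem IsRe.smul {v : E} (hv : IsRe x v) {c : ℂ} (hc : c.im = 0) : IsRe x (c • v) := fun k => by
  simp [hv k, hc]

theorem IsRe.smul_real {v : E} (hv : IsRe x v) (c : ℝ) : IsRe x ((c : ℂ) • v) :=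
  hv.smul (Complex.ofReal_im c)

theorem IsRe.sum {ι : Type*} (s : Finset ι) {f : ι → E} (hf : ∀ i ∈ s, IsRe x (f i)) :
    IsRe x (∑ i ∈ s, f i) := by
  classical
  induction s using Finset.induction_on with
  | empty => simpa using IsRe.zero
  | insert a s ha ih =>
    rw [Finset.sum_insert ha]
    exact (hf a (Finset.mem_insert_self a s)).add
      (ih (fun i hi => hf i (Finset.mem_insert_of_mem hi)))

theorem isClosed_isRe (x : κ → E →L[ℂ] ℂ) : IsClosed {w : E | IsRe x w} := by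
  have : {w : E | IsRe x w} = ⋂ k, {w : E | (x k w).im = 0} := by
    ext w; simp [IsRe]
  rw [this]
  refine isClosed_iInter fun k => ?_
  exact isClosed_eq (Complex.continuous_im.comp (x k).continuous) continuous_const

theorem isRe_of_tendsto {α : Type*} {l : Filter α} [l.NeBot] {f : α → E} {v : E}
    (h : Tendsto f l (𝓝 v)) (hf : ∃ᶠ a in l, IsRe x (f a)) : IsRe x v :=
  (isClosed_isRe x).mem_of_frequently_of_tendsto hf h

/-- a real operator: it preserves real vectors -/
def RealOp (x : κ → E →L[ℂ] ℂ) (N : E →L[ℂ] E) : Prop := ∀ v, IsRe x v → IsRe x (N v)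

theorem RealOp.pow {N : E →L[ℂ] E} (hN : RealOp x N) (j : ℕ) : RealOp x (N ^ j) := by
  induction j with
  | zero => intro v hv; simpa using hv
  | succ j ih =>
    intro v hv
    rw [pow_succ]
    exact ih _ (hN v hv)

/-- `exp (z N)` -/
noncomputable def ex (N : E →L[ℂ] E) (z : ℂ) : E →L[ℂ] E :=
  NormedSpace.exp (z • N)

/-- `(exp (z N) - 1) / N` for nilpotent `N` with `N ^ K = 0` -/
noncomputable def tz (N : E →L[ℂ] E) (K : ℕ) (z : ℂ) : E →L[ℂ] E :=
  ∑ j ∈ range K, (((j + 1)! : ℂ)⁻¹ * z ^ (j + 1)) • N ^ j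

theorem tz_zero (N : E →L[ℂ] E) (K : ℕ) : tz N K 0 = 0 := by
  unfold tz
  refine Finset.sum_eq_zero fun j _ => ?_
  simp

variable [CompleteSpace E] (N : E →L[ℂ] E)

theorem ex_zero : ex N 0 = 1 := by simp [ex]

theorem ex_add (z w : ℂ) : ex N (z + w) = ex N z * ex N w := by
  unfold ex
  rw [add_smul]
  letI : NormedAlgebra ℚ (E →L[ℂ] E) := NormedAlgebra.restrictScalars ℚ ℂ (E →L[ℂ] E)
  exact NormedSpace.exp_add_of_commute (((Commute.refl N).smul_left z).smul_right w)

theorem ex_neg_mul (z : ℂ) : ex N (-z) * ex N z = 1 := by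
  rw [← ex_add, neg_add_cancel, ex_zero]

theorem ex_mul_neg (z : ℂ) : ex N z * ex N (-z) = 1 := by
  rw [← ex_add, add_neg_cancel, ex_zero]

theorem ex_neg_apply (z : ℂ) (v : E) : ex N (-z) (ex N z v) = v := by
  have := congrArg (fun T => T v) (ex_neg_mul N z)
  simpa using this

theorem ex_apply_neg (z : ℂ) (v : E) : ex N z (ex N (-z) v) = v := by
  have := congrArg (fun T => T v) (ex_mul_neg N z)
  simpa using this

theorem ex_comm (z : ℂ) : N * ex N z = ex N z * N := by
  unfold ex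
  exact ((Commute.refl N).smul_right z).exp_right

theorem ex_comm_apply (z : ℂ) (v : E) : N (ex N z v) = ex N z (N v) := by
  have := congrArg (fun T => T v) (ex_comm N z)
  simpa using this

theorem hasDerivAt_ex (z : ℂ) : HasDerivAt (ex N) (N * ex N z) z :=
  hasDerivAt_exp_smul_const' N z

theorem hasDerivAt_ex_apply (z : ℂ) (v : E) :
    HasDerivAt (fun z => ex N z v) (N (ex N z v)) z := by
  have h := (hasDerivAt_ex N z).clm_apply (hasDerivAt_const z v)
  simpa using h

variable {N}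

theorem ex_eq_sum {K : ℕ} (hK : N ^ K = 0) (z : ℂ) :
    ex N z = ∑ j ∈ range K, ((j ! : ℂ)⁻¹ * z ^ j) • N ^ j := by
  unfold ex
  rw [NormedSpace.exp_eq_tsum ℂ]
  simp only
  rw [tsum_eq_sum (s := range K)]
  · refine Finset.sum_congr rfl fun j _ => ?_
    rw [smul_pow, smul_smul]
  · intro j hj
    have hj' : K ≤ j := by simpa using hj
    rw [smul_pow, pow_eq_zero_of_le hj' hK, smul_zero, smul_zero]

theorem hasDerivAt_tz {K : ℕ} (hK : N ^ K = 0) (z : ℂ) :
    HasDerivAt (tz N K) (ex N z) z := by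
  rw [ex_eq_sum hK]
  unfold tz
  refine HasDerivAt.fun_sum fun j _ => ?_
  have h := ((hasDerivAt_pow (j + 1) z).const_mul (((j + 1)! : ℂ)⁻¹))
  have h' := h.smul_const (N ^ j)
  convert h' using 2
  rw [Nat.factorial_succ]
  push_cast
  have h1 : (j ! : ℂ) ≠ 0 := by exact_mod_cast Nat.factorial_ne_zero j
  have h2 : ((j : ℂ) + 1) ≠ 0 := by exact_mod_cast Nat.succ_ne_zero j
  field_simp

theorem tz_mul {K : ℕ} (hK : N ^ K = 0) (z : ℂ) : tz N K z * N = ex N z - 1 := by
  have hd : ∀ w : ℂ, HasDerivAt (fun z => tz N K z * N - ex N z) 0 w := by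
    intro w
    have h1 := (hasDerivAt_tz hK w).mul_const N
    have h2 := h1.sub (hasDerivAt_ex N w)
    rw [ex_comm, sub_self] at h2
    exact h2
  have hc := is_const_of_deriv_eq_zero (fun w => (hd w).differentiableAt)
    (fun w => (hd w).deriv) z 0
  simp only [tz_zero, zero_mul, ex_zero, zero_sub] at hc
  rw [sub_eq_iff_eq_add] at hc
  rw [hc]
  abel

theorem tz_mul_apply {K : ℕ} (hK : N ^ K = 0) (z : ℂ) (v : E) :
    tz N K z (N v) = ex N z v - v := by
  have := congrArg (fun T => T v) (tz_mul hK z)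
  simpa using this

theorem tz_add {K : ℕ} (hK : N ^ K = 0) (z w : ℂ) :
    tz N K (z + w) = tz N K z + ex N z * tz N K w := by
  have hd : ∀ w : ℂ, HasDerivAt (fun w => tz N K (z + w) - ex N z * tz N K w) 0 w := by
    intro w
    have h1 : HasDerivAt (fun w => tz N K (z + w)) (ex N (z + w)) w := by
      simpa using (hasDerivAt_tz hK (z + w)).comp_const_add z w
    have h2 := (hasDerivAt_tz hK w).const_mul (ex N z)
    have h3 := h1.sub h2
    rw [ex_add, sub_self] at h3
    exact h3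
  have hc := is_const_of_deriv_eq_zero (fun w => (hd w).differentiableAt)
    (fun w => (hd w).deriv) w 0
  simp only [tz_zero, mul_zero, sub_zero, add_zero] at hc
  rw [← hc]
  abel

theorem tz_add_apply {K : ℕ} (hK : N ^ K = 0) (z w : ℂ) (v : E) :
    tz N K (z + w) v = tz N K z v + ex N z (tz N K w v) := by
  rw [tz_add hK]
  simp

theorem ex_re {K : ℕ} (hN : RealOp x N) (hK : N ^ K = 0) (t : ℝ) {v : E} (hv : IsRe x v) :
    IsRe x (ex N t v) := by
  rw [ex_eq_sum hK]
  simp only [_root_.sum_apply, _root_.smul_apply]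
  refine IsRe.sum _ fun j _ => (hN.pow j v hv).smul ?_
  rw [← Complex.ofReal_natCast, ← Complex.ofReal_inv, ← Complex.ofReal_pow, ← Complex.ofReal_mul]
  exact Complex.ofReal_im _

omit [CompleteSpace E] in
theorem tz_re {K : ℕ} (hN : RealOp x N) (t : ℝ) {v : E} (hv : IsRe x v) :
    IsRe x (tz N K t v) := by
  unfold tz
  simp only [_root_.sum_apply, _root_.smul_apply]
  refine IsRe.sum _ fun j _ => (hN.pow j v hv).smul ?_
  rw [← Complex.ofReal_natCast, ← Complex.ofReal_inv, ← Complex.ofReal_pow, ← Complex.ofReal_mul]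
  exact Complex.ofReal_im _

theorem isPolyFun_ex {K : ℕ} (hK : N ^ K = 0) (v : E) (k : κ) :
    IsPolyFun (fun y : ℝ => x k (ex N (y * Complex.I) v)) := by
  simp only [ex_eq_sum hK, _root_.sum_apply, _root_.smul_apply, map_sum, map_smul, smul_eq_mul]
  refine IsPolyFun.sum _ fun j _ => ?_
  refine IsPolyFun.mul ?_ (IsPolyFun.const _)
  exact (IsPolyFun.const _).mul ((IsPolyFun.id'.mul (IsPolyFun.const _)).pow j)

omit [CompleteSpace E] in
theorem isPolyFun_tz (K : ℕ) (v : E) (k : κ) :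
    IsPolyFun (fun y : ℝ => x k (tz N K (y * Complex.I) v)) := by
  simp only [tz, _root_.sum_apply, _root_.smul_apply, map_sum, map_smul, smul_eq_mul]
  refine IsPolyFun.sum _ fun j _ => ?_
  refine IsPolyFun.mul ?_ (IsPolyFun.const _)
  exact (IsPolyFun.const _).mul ((IsPolyFun.id'.mul (IsPolyFun.const _)).pow (j + 1))

/-- polynomial growth of `exp (iyN)` -/
theorem ex_growth {K : ℕ} (hK : N ^ K = 0) :
    ∃ C : ℝ, 0 ≤ C ∧ ∀ y : ℝ, 0 ≤ y → ‖ex N (y * Complex.I)‖ ≤ C * (1 + y) ^ K := by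
  refine ⟨∑ j ∈ range K, ‖((j ! : ℂ)⁻¹)‖ * ‖N ^ j‖, by positivity, fun y hy => ?_⟩
  rw [ex_eq_sum hK, Finset.sum_mul]
  refine (norm_sum_le _ _).trans (Finset.sum_le_sum fun j hj => ?_)
  have hj' : j ≤ K := by
    have := Finset.mem_range.mp hj
    omega
  rw [norm_smul, norm_mul, norm_pow, norm_mul, Complex.norm_I, mul_one, Complex.norm_real,
    Real.norm_of_nonneg hy]
  have h1 : y ^ j ≤ (1 + y) ^ K := by
    calc y ^ j ≤ (1 + y) ^ j := by gcongr; linarith
      _ ≤ (1 + y) ^ K := pow_le_pow_right₀ (by linarith) hj'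
  calc ‖((j ! : ℂ)⁻¹)‖ * y ^ j * ‖N ^ j‖ = ‖((j ! : ℂ)⁻¹)‖ * ‖N ^ j‖ * y ^ j := by ring
    _ ≤ ‖((j ! : ℂ)⁻¹)‖ * ‖N ^ j‖ * (1 + y) ^ K := by gcongr

end Pool.Agent.Y92.RS
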