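import Pool.Agent.Y92.RS.CuspFinal

/-!
# The weight one case: period matrices

`H = H¹` has basis `e_1,…,e_g,f_1,…,f_g`, `F¹` is spanned by `ω_j = e_j + Σ_b Z_{bj} f_b`.
-/

namespace Pool.Agent.Y92.RS

open Filter Asymptotics Finset Metric
open scoped Topology ComplexConjugate Nat

/-- the operator `(v₀, v₁) ↦ (0, N v₀)` on `ℂ^g ⊕ ℂ^g` -/
noncomputable def nilOp {g : ℕ} (N : Matrix (Fin g) (Fin g) ℝ) :
    (Fin g ⊕ Fin g → ℂ) →L[ℂ] (Fin g ⊕ Fin g → ℂ) :=
  LinearMap.toContinuousLinearMap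
    { toFun := fun v => Sum.elim (fun _ => 0) (fun b => ∑ a, ((N b a : ℝ) : ℂ) * v (Sum.inl a))
      map_add' := by
        intro v w
        ext k
        rcases k with k | k
        · simp
        · simp [mul_add, Finset.sum_add_distrib]
      map_smul' := by
        intro c v
        ext k
        rcases k with k | k
        · simp
        · simp only [Sum.elim_inr, Pi.smul_apply, smul_eq_mul, RingHom.id_apply, Finset.mul_sum]
          exact Finset.sum_congr rfl fun a _ => by ring }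

theorem nilOp_inl {g : ℕ} (N : Matrix (Fin g) (Fin g) ℝ) (v : Fin g ⊕ Fin g → ℂ) (a : Fin g) :
    nilOp N v (Sum.inl a) = 0 := rfl

theorem nilOp_inr {g : ℕ} (N : Matrix (Fin g) (Fin g) ℝ) (v : Fin g ⊕ Fin g → ℂ) (b : Fin g) :
    nilOp N v (Sum.inr b) = ∑ a, ((N b a : ℝ) : ℂ) * v (Sum.inl a) := rfl

theorem nilOp_sq {g : ℕ} (N : Matrix (Fin g) (Fin g) ℝ) : (nilOp N) ^ 2 = 0 := by
  ext v k
  rw [pow_two]
  change nilOp N (nilOp N v) k = 0
  rcases k with k | k
  · rfl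
  · rw [nilOp_inr]
    simp [nilOp_inl]

/-- `exp (z N) = 1 + z N` when `N ^ 2 = 0` -/
theorem ex_sq_zero {E : Type*} [NormedAddCommGroup E] [NormedSpace ℂ E] [CompleteSpace E]
    {N : E →L[ℂ] E} (h : N ^ 2 = 0) (z : ℂ) (v : E) : ex N z v = v + z • N v := by
  rw [ex_eq_sum h]
  simp [Finset.sum_range_succ]

/-- the coordinates of `ℂ^g ⊕ ℂ^g` -/
noncomputable def crd (g : ℕ) (k : Fin g ⊕ Fin g) : (Fin g ⊕ Fin g → ℂ) →L[ℂ] ℂ :=
  ContinuousLinearMap.proj k

theorem crd_apply (g : ℕ) (k : Fin g ⊕ Fin g) (v : Fin g ⊕ Fin g → ℂ) : crd g k v = v k := rfl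

theorem realOp_nilOp {g : ℕ} (N : Matrix (Fin g) (Fin g) ℝ) : RealOp (crd g) (nilOp N) := by
  intro v hv k
  rw [crd_apply]
  rcases k with k | k
  · rw [nilOp_inl]; rfl
  · rw [nilOp_inr, Complex.im_sum]
    refine Finset.sum_eq_zero fun a _ => ?_
    have := hv (Sum.inl a)
    rw [crd_apply] at this
    rw [Complex.im_ofReal_mul, this, mul_zero]

/-- **Real points near a cusp, weight one.** -/
theorem pair_cusp {g : ℕ} (N : Matrix (Fin g) (Fin g) ℝ) {ρ : ℝ} (hρ : 0 < ρ)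
    (Z₀ : ℂ → Matrix (Fin g) (Fin g) ℂ)
    (hZ : ∀ a b, DifferentiableOn ℂ (fun q => Z₀ q a b) (ball 0 ρ))
    (v : ℂ → Fin g → ℂ) (hv : DifferentiableOn ℂ v (ball 0 ρ)) (hv0 : ¬ ∀ᶠ q in 𝓝 0, v q = 0)
    (μ : ℂ → Fin g ⊕ Fin g → ℂ)
    (hμ : ∀ z, qq z ∈ ball (0 : ℂ) ρ → HasDerivAt μ (Sum.elim (v (qq z))
      (fun b => ∑ a, (z * ((N b a : ℝ) : ℂ) + Z₀ (qq z) b a) * v (qq z) a)) z)
    (hmon : ∀ z, qq z ∈ ball (0 : ℂ) ρ → ∀ k, (μ (z + 1) k - (μ z k + nilOp N (μ z) k)).im = 0)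
    (hpos : ∀ r : Fin g → ℝ, (∀ b, ∑ a, N b a * r a = 0) →
      (∀ b, ∑ a, (Z₀ 0 b a).im * r a = 0) → r = 0) :
    ∃ y₁ : ℝ, ∀ z : ℂ, y₁ < z.im → ¬ ∀ k, (μ z k).im = 0 := by
  have hva : AnalyticAt ℂ v 0 := hv.analyticAt (isOpen_ball.mem_nhds (mem_ball_self hρ))
  obtain ⟨m, w, hwa, hw0, hw⟩ := hva.exists_eventuallyEq_pow_smul_nonzero_iff.mpr hv0
  -- a smaller ball
  obtain ⟨ρ₁, hρ₁, hwd, hwe⟩ : ∃ ρ₁ > 0, DifferentiableOn ℂ w (ball 0 ρ₁) ∧
      ∀ q ∈ ball (0 : ℂ) ρ₁, v q = q ^ m • w q := by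
    have h1 : ∀ᶠ q in 𝓝 (0 : ℂ), DifferentiableAt ℂ w q ∧ v q = q ^ m • w q := by
      filter_upwards [hwa.eventually_analyticAt, hw] with q hq hq2
      exact ⟨hq.differentiableAt, by simpa using hq2⟩
    obtain ⟨ρ₁, hρ₁, h2⟩ := Metric.eventually_nhds_iff_ball.mp h1
    exact ⟨ρ₁, hρ₁, fun q hq => (h2 q hq).1.differentiableWithinAt, fun q hq => (h2 q hq).2⟩
  set ρ' := min ρ ρ₁ with hρ'
  have hρ'0 : 0 < ρ' := lt_min hρ hρ₁
  have hsub : ball (0 : ℂ) ρ' ⊆ ball 0 ρ := ball_subset_ball (min_le_left _ _)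
  have hsub₁ : ball (0 : ℂ) ρ' ⊆ ball 0 ρ₁ := ball_subset_ball (min_le_right _ _)
  obtain ⟨c, -, hc⟩ := exists_exp_le hρ'0 0
  set ψ : ℂ → Fin g ⊕ Fin g → ℂ := fun q =>
    Sum.elim (w q) (fun b => ∑ a, Z₀ q b a * w q a) with hψ
  have hψd : DifferentiableOn ℂ ψ (ball 0 ρ') := by
    rw [differentiableOn_pi]
    intro k
    have hwk : ∀ a, DifferentiableOn ℂ (fun q => w q a) (ball 0 ρ') := fun a =>
      (differentiableOn_pi.mp hwd a).mono hsub₁
    rcases k with k | k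
    · exact hwk k
    · have : DifferentiableOn ℂ (fun q => ∑ a, Z₀ q k a * w q a) (ball 0 ρ') :=
        DifferentiableOn.fun_sum fun a _ => ((hZ k a).mono hsub).mul (hwk a)
      exact this
  have hx : ∀ v : Fin g ⊕ Fin g → ℂ, (∀ k, crd g k v = 0) → v = 0 := fun v h => funext h
  have hmain := cusp_nonreal (x := crd g) (c := c) (ν := μ) hx (realOp_nilOp N) (nilOp_sq N)
    hρ'0 hψd m ?_ ?_ ?_
  · obtain ⟨y₁, hy₁⟩ := hmain
    exact ⟨y₁, fun z hz hre => hy₁ z hz hre⟩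
  · intro z hz
    have hq : qq z ∈ ball (0 : ℂ) ρ' := norm_qq_lt hc hz
    refine (hμ z (hsub hq)).congr_deriv ?_
    rw [ex_sq_zero (nilOp_sq N)]
    have hvq := hwe _ (hsub₁ hq)
    ext k
    rcases k with k | k
    · simp only [Sum.elim_inl, Pi.add_apply, Pi.smul_apply, nilOp_inl, smul_eq_mul, hψ]
      rw [hvq, mul_zero, add_zero]
      rfl
    · simp only [Sum.elim_inr, Pi.add_apply, Pi.smul_apply, nilOp_inr, smul_eq_mul, hψ,
        Sum.elim_inl]
      rw [hvq, Finset.mul_sum, Finset.mul_sum, ← Finset.sum_add_distrib]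
      refine Finset.sum_congr rfl fun a _ => ?_
      simp only [Pi.smul_apply, smul_eq_mul]
      ring
  · intro z hz k
    have hq : qq z ∈ ball (0 : ℂ) ρ' := norm_qq_lt hc hz
    have := hmon z (hsub hq) k
    rw [crd_apply, ex_sq_zero (nilOp_sq N), one_smul]
    exact this
  · intro r hr hNr b hb
    have hb0 : b ≠ 0 := by
      intro h
      apply hw0
      rw [h, zero_smul] at hb
      ext a
      have := congrFun hb (Sum.inl a)
      simpa [hψ] using this
    -- the real vector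
    have hr' : ∀ k, (r k).im = 0 := hr
    have hre : ∀ k, ((r k).re : ℂ) = r k := fun k =>
      Complex.ext (by simp) (by simpa using (hr' k).symm)
    have hr0 : (fun a => (r (Sum.inl a)).re) = 0 := by
      apply hpos
      · intro k
        have h1 := congrFun hNr (Sum.inr k)
        rw [nilOp_inr] at h1
        have h2 : (∑ a, ((N k a : ℝ) : ℂ) * r (Sum.inl a)).re = 0 := by rw [h1]; rfl
        rw [Complex.re_sum] at h2
        rw [← h2]
        refine Finset.sum_congr rfl fun a _ => ?_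
        rw [Complex.re_ofReal_mul]
      · intro k
        have h1 := congrFun hb (Sum.inr k)
        have h2 : ∀ a, w 0 a = b * r (Sum.inl a) := fun a => by
          have := congrFun hb (Sum.inl a)
          simpa [hψ] using this
        simp only [hψ, Sum.elim_inr, Pi.smul_apply, smul_eq_mul, h2] at h1
        have h3 : b * ∑ a, Z₀ 0 k a * r (Sum.inl a) = b * r (Sum.inr k) := by
          rw [← h1, Finset.mul_sum]
          exact Finset.sum_congr rfl fun a _ => by ring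
        have h4 := mul_left_cancel₀ hb0 h3
        have h5 : (∑ a, Z₀ 0 k a * r (Sum.inl a)).im = 0 := by
          rw [h4]; exact hr (Sum.inr k)
        rw [Complex.im_sum] at h5
        rw [← h5]
        refine Finset.sum_congr rfl fun a _ => ?_
        rw [← hre (Sum.inl a), Complex.im_mul_ofReal, Complex.ofReal_re]
    apply hw0
    ext a
    have h1 := congrFun hb (Sum.inl a)
    have h2 : w 0 a = b * r (Sum.inl a) := by simpa [hψ] using h1
    have h3 := congrFun hr0 a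
    simp only [Pi.zero_apply] at h3
    rw [h2, ← hre (Sum.inl a), h3]
    simp

end Pool.Agent.Y92.RS
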