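import Mathlib

/-!
# Polynomial functions of a real variable and exponential smallness

Auxiliary facts: a complex-valued polynomial function of a real variable whose
imaginary part is exponentially small along an unbounded sequence is real.
-/

namespace Pool.Agent.Y92.RS

open Filter Asymptotics Polynomial
open scoped Topology ComplexConjugate

/-- complex-valued polynomial functions of a real variable -/
def IsPolyFun (f : ℝ → ℂ) : Prop := ∃ P : ℂ[X], ∀ y : ℝ, f y = P.eval (y : ℂ)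

theorem IsPolyFun.const (c : ℂ) : IsPolyFun (fun _ => c) := ⟨C c, by simp⟩

theorem IsPolyFun.id' : IsPolyFun (fun y => (y : ℂ)) := ⟨X, by simp⟩

theorem IsPolyFun.add {f g : ℝ → ℂ} (hf : IsPolyFun f) (hg : IsPolyFun g) :
    IsPolyFun (fun y => f y + g y) := by
  obtain ⟨P, hP⟩ := hf
  obtain ⟨Q, hQ⟩ := hg
  exact ⟨P + Q, fun y => by simp [hP, hQ]⟩

theorem IsPolyFun.mul {f g : ℝ → ℂ} (hf : IsPolyFun f) (hg : IsPolyFun g) :
    IsPolyFun (fun y => f y * g y) := by
  obtain ⟨P, hP⟩ := hf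
  obtain ⟨Q, hQ⟩ := hg
  exact ⟨P * Q, fun y => by simp [hP, hQ]⟩

theorem IsPolyFun.pow {f : ℝ → ℂ} (hf : IsPolyFun f) (n : ℕ) :
    IsPolyFun (fun y => f y ^ n) := by
  obtain ⟨P, hP⟩ := hf
  exact ⟨P ^ n, fun y => by simp [hP]⟩

theorem IsPolyFun.sum {ι : Type*} (s : Finset ι) {f : ι → ℝ → ℂ}
    (hf : ∀ i ∈ s, IsPolyFun (f i)) : IsPolyFun (fun y => ∑ i ∈ s, f i y) := by
  classical
  induction s using Finset.induction_on with
  | empty => simpa using IsPolyFun.const 0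
  | insert a s ha ih =>
    have h1 := hf a (Finset.mem_insert_self a s)
    have h2 := ih (fun i hi => hf i (Finset.mem_insert_of_mem hi))
    simpa [Finset.sum_insert ha] using h1.add h2

theorem IsPolyFun.conj {f : ℝ → ℂ} (hf : IsPolyFun f) :
    IsPolyFun (fun y => conj (f y)) := by
  obtain ⟨P, hP⟩ := hf
  refine ⟨P.map (starRingEnd ℂ), fun y => ?_⟩
  change (starRingEnd ℂ) (f y) = _
  rw [hP, Polynomial.eval_map]
  have h2 : (starRingEnd ℂ) (y : ℂ) = (y : ℂ) := Complex.conj_ofReal y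
  have := Polynomial.hom_eval₂ P (RingHom.id ℂ) (starRingEnd ℂ) (y : ℂ)
  simp only [RingHomCompTriple.comp_eq] at this
  rw [h2] at this
  rw [← this]
  rfl

/-- the imaginary part of a polynomial function is a real polynomial -/
theorem IsPolyFun.im_poly {f : ℝ → ℂ} (hf : IsPolyFun f) :
    ∃ Q : ℝ[X], ∀ y : ℝ, (f y).im = Q.eval y := by
  obtain ⟨P, hP⟩ := hf
  have key : ∀ P : ℂ[X], ∃ Q : ℝ[X], ∀ y : ℝ, (P.eval (y : ℂ)).im = Q.eval y := by
    intro P
    induction P using Polynomial.induction_on' with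
    | add p q hp hq =>
      obtain ⟨Q1, h1⟩ := hp
      obtain ⟨Q2, h2⟩ := hq
      exact ⟨Q1 + Q2, fun y => by simp [h1, h2]⟩
    | monomial n a =>
      refine ⟨Polynomial.monomial n a.im, fun y => ?_⟩
      rw [Polynomial.eval_monomial, Polynomial.eval_monomial, ← Complex.ofReal_pow,
        Complex.im_mul_ofReal]
  obtain ⟨Q, hQ⟩ := key P
  exact ⟨Q, fun y => by rw [hP, hQ]⟩

theorem tendsto_pow_mul_exp (C : ℝ) (K : ℕ) :
    Tendsto (fun y : ℝ => C * (1 + y) ^ K * Real.exp (-(2 * Real.pi * y))) atTop (𝓝 0) := by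
  have h1 : Tendsto (fun y : ℝ => (1 + y) ^ K * Real.exp (-(1 + y))) atTop (𝓝 0) :=
    (Real.tendsto_pow_mul_exp_neg_atTop_nhds_zero K).comp
      (tendsto_atTop_add_const_left atTop (1 : ℝ) tendsto_id)
  have h2 : Tendsto (fun y : ℝ => |C| * Real.exp 1 * ((1 + y) ^ K * Real.exp (-(1 + y))))
      atTop (𝓝 0) := by
    simpa using h1.const_mul (|C| * Real.exp 1)
  refine squeeze_zero_norm' ?_ h2
  filter_upwards [eventually_ge_atTop (0 : ℝ)] with y hy
  have hpi : 1 ≤ 2 * Real.pi := by linarith [Real.pi_gt_three]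
  have h3 : Real.exp (-(2 * Real.pi * y)) ≤ Real.exp 1 * Real.exp (-(1 + y)) := by
    rw [← Real.exp_add]
    apply Real.exp_le_exp.mpr
    nlinarith
  have h4 : (0 : ℝ) ≤ (1 + y) ^ K := by positivity
  rw [Real.norm_eq_abs, abs_mul, abs_mul, abs_of_nonneg h4, abs_of_pos (Real.exp_pos _)]
  calc |C| * (1 + y) ^ K * Real.exp (-(2 * Real.pi * y))
      ≤ |C| * (1 + y) ^ K * (Real.exp 1 * Real.exp (-(1 + y))) := by
        apply mul_le_mul_of_nonneg_left h3
        positivity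
    _ = |C| * Real.exp 1 * ((1 + y) ^ K * Real.exp (-(1 + y))) := by ring

/-- a real polynomial which is exponentially small along an unbounded sequence vanishes -/
theorem poly_eq_zero_of_small (Q : ℝ[X]) (C : ℝ) (K : ℕ)
    (h : ∀ y₁ : ℝ, ∃ y > y₁, |Q.eval y| ≤ C * (1 + y) ^ K * Real.exp (-(2 * Real.pi * y))) :
    Q = 0 := by
  by_contra hQ
  have hdeg : (1 : ℝ[X]).degree ≤ Q.degree := by
    rw [Polynomial.degree_one]
    exact Polynomial.zero_le_degree_iff.mpr hQ
  have hO := Polynomial.isBigO_atTop_of_degree_le (1 : ℝ[X]) Q hdeg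
  obtain ⟨c, hc⟩ := hO.bound
  have ht := tendsto_pow_mul_exp C K
  have hc' : ∀ᶠ y : ℝ in atTop, (1 : ℝ) ≤ c * |Q.eval y| := by
    filter_upwards [hc] with y hy
    simpa using hy
  have hsm : ∀ᶠ y : ℝ in atTop,
      C * (1 + y) ^ K * Real.exp (-(2 * Real.pi * y)) < 1 / (|c| + 1) := by
    have : (0 : ℝ) < 1 / (|c| + 1) := by positivity
    exact ht.eventually (gt_mem_nhds this)
  obtain ⟨y₁, hy₁⟩ := (hc'.and hsm).exists_forall_of_atTop
  obtain ⟨y, hy, hy2⟩ := h y₁
  obtain ⟨h1, h2⟩ := hy₁ y hy.le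
  have h3 : |Q.eval y| < 1 / (|c| + 1) := lt_of_le_of_lt hy2 h2
  have h4 : c * |Q.eval y| ≤ |c| * |Q.eval y| :=
    mul_le_mul_of_nonneg_right (le_abs_self c) (abs_nonneg _)
  have h5 : |c| * |Q.eval y| ≤ |c| * (1 / (|c| + 1)) :=
    mul_le_mul_of_nonneg_left h3.le (abs_nonneg _)
  have h6 : |c| * (1 / (|c| + 1)) < 1 := by
    rw [mul_one_div, div_lt_one (by positivity)]
    linarith
  linarith

/-- a polynomial function whose imaginary part is exponentially small along an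
unbounded sequence is real-valued -/
theorem IsPolyFun.im_eq_zero {f : ℝ → ℂ} (hf : IsPolyFun f) (C : ℝ) (K : ℕ)
    (h : ∀ y₁ : ℝ, ∃ y > y₁, |(f y).im| ≤ C * (1 + y) ^ K * Real.exp (-(2 * Real.pi * y))) :
    ∀ y : ℝ, (f y).im = 0 := by
  obtain ⟨Q, hQ⟩ := hf.im_poly
  have : Q = 0 := by
    apply poly_eq_zero_of_small Q C K
    intro y₁
    obtain ⟨y, hy, hy2⟩ := h y₁
    exact ⟨y, hy, by rwa [← hQ]⟩
  intro y
  rw [hQ, this, Polynomial.eval_zero]

end Pool.Agent.Y92.RS
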