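import Pool.Agent.Y92.RS.Nil

/-!
# Solving `(2 π i q d/dq + N) Φ = h` near `q = 0` for nilpotent `N`
-/

namespace Pool.Agent.Y92.RS

open Filter Asymptotics Finset Metric
open scoped Topology ComplexConjugate Nat

variable {E : Type*} [NormedAddCommGroup E] [NormedSpace ℂ E]

/-- holomorphic on the disc of radius `ρ` and `O(|q| ^ k)` there -/
def Good (ρ : ℝ) (k : ℕ) (h : ℂ → E) : Prop :=
  DifferentiableOn ℂ h (ball 0 ρ) ∧ ∃ C : ℝ, 0 ≤ C ∧ ∀ q ∈ ball (0 : ℂ) ρ, ‖h q‖ ≤ C * ‖q‖ ^ k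

theorem Good.sub {ρ : ℝ} {k : ℕ} {f g : ℂ → E} (hf : Good ρ k f) (hg : Good ρ k g) :
    Good ρ k (fun q => f q - g q) := by
  obtain ⟨hf1, C, hC, hf2⟩ := hf
  obtain ⟨hg1, D, hD, hg2⟩ := hg
  refine ⟨hf1.sub hg1, C + D, by positivity, fun q hq => ?_⟩
  calc ‖f q - g q‖ ≤ ‖f q‖ + ‖g q‖ := norm_sub_le _ _
    _ ≤ C * ‖q‖ ^ k + D * ‖q‖ ^ k := add_le_add (hf2 q hq) (hg2 q hq)
    _ = (C + D) * ‖q‖ ^ k := by ring

theorem Good.add {ρ : ℝ} {k : ℕ} {f g : ℂ → E} (hf : Good ρ k f) (hg : Good ρ k g) :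
    Good ρ k (fun q => f q + g q) := by
  obtain ⟨hf1, C, hC, hf2⟩ := hf
  obtain ⟨hg1, D, hD, hg2⟩ := hg
  refine ⟨hf1.add hg1, C + D, by positivity, fun q hq => ?_⟩
  calc ‖f q + g q‖ ≤ ‖f q‖ + ‖g q‖ := norm_add_le _ _
    _ ≤ C * ‖q‖ ^ k + D * ‖q‖ ^ k := add_le_add (hf2 q hq) (hg2 q hq)
    _ = (C + D) * ‖q‖ ^ k := by ring

theorem Good.clm {ρ : ℝ} {k : ℕ} {f : ℂ → E} (hf : Good ρ k f) (T : E →L[ℂ] E) :
    Good ρ k (fun q => T (f q)) := by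
  obtain ⟨hf1, C, hC, hf2⟩ := hf
  refine ⟨T.differentiable.comp_differentiableOn hf1, ‖T‖ * C, by positivity, fun q hq => ?_⟩
  calc ‖T (f q)‖ ≤ ‖T‖ * ‖f q‖ := T.le_opNorm _
    _ ≤ ‖T‖ * (C * ‖q‖ ^ k) := by gcongr; exact hf2 q hq
    _ = ‖T‖ * C * ‖q‖ ^ k := by ring

theorem Good.zero {ρ : ℝ} {k : ℕ} : Good ρ k (fun _ => (0 : E)) :=
  ⟨differentiableOn_const _, 0, le_rfl, fun q _ => by simp⟩

variable [CompleteSpace E]

theorem exists_prim {ρ : ℝ} (hρ : 0 < ρ) {k : ℕ} (hk : 1 ≤ k) {h : ℂ → E} (hh : Good ρ k h) :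
    ∃ H H' : ℂ → E, Good ρ k H ∧ (∀ q ∈ ball (0 : ℂ) ρ, HasDerivAt H (H' q) q) ∧
      ∀ q ∈ ball (0 : ℂ) ρ, (2 * Real.pi * Complex.I * q) • H' q = h q := by
  obtain ⟨hd, C, hC, hb⟩ := hh
  have hmem : (0 : ℂ) ∈ ball (0 : ℂ) ρ := mem_ball_self hρ
  have h0 : h 0 = 0 := by
    have := hb 0 hmem
    rw [norm_zero, zero_pow (by omega), mul_zero] at this
    exact norm_le_zero_iff.mp this
  have h2pi : (2 * Real.pi * Complex.I : ℂ) ≠ 0 := Complex.two_pi_I_ne_zero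
  have hnhds : ball (0 : ℂ) ρ ∈ 𝓝 (0 : ℂ) := isOpen_ball.mem_nhds hmem
  have hds : DifferentiableOn ℂ (dslope h 0) (ball 0 ρ) :=
    (Complex.differentiableOn_dslope hnhds).mpr hd
  have hf : DifferentiableOn ℂ (fun q => (2 * Real.pi * Complex.I : ℂ)⁻¹ • dslope h 0 q)
      (ball 0 ρ) := hds.const_smul _
  obtain ⟨H, hH0, hH⟩ := (hf.isExactOn_ball).with_val_at 0 0
  have hnorm : ‖(2 * Real.pi * Complex.I : ℂ)⁻¹‖ ≤ 1 := by
    rw [norm_inv, norm_mul, norm_mul, Complex.norm_I, Complex.norm_real, Complex.norm_two,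
      Real.norm_of_nonneg Real.pi_pos.le]
    apply inv_le_one_of_one_le₀
    linarith [Real.pi_gt_three]
  refine ⟨H, fun q => (2 * Real.pi * Complex.I : ℂ)⁻¹ • dslope h 0 q, ⟨?_, C, hC, ?_⟩, hH, ?_⟩
  · exact fun q hq => (hH q hq).differentiableAt.differentiableWithinAt
  · -- the bound
    have hbd : ∀ w ∈ ball (0 : ℂ) ρ, w ≠ 0 → ‖dslope h 0 w‖ ≤ C * ‖w‖ ^ (k - 1) := by
      intro w hw hw0
      have h1 := sub_smul_dslope_of_zero h0 w
      rw [sub_zero] at h1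
      have h2 : ‖w‖ * ‖dslope h 0 w‖ ≤ ‖w‖ * (C * ‖w‖ ^ (k - 1)) := by
        rw [← norm_smul, h1]
        calc ‖h w‖ ≤ C * ‖w‖ ^ k := hb w hw
          _ = C * (‖w‖ ^ (k - 1) * ‖w‖) := by rw [← pow_succ]; congr 2; omega
          _ = ‖w‖ * (C * ‖w‖ ^ (k - 1)) := by ring
      exact le_of_mul_le_mul_left h2 (norm_pos_iff.mpr hw0)
    intro q hq
    by_cases hq0 : q = 0
    · rw [hq0, hH0, norm_zero, norm_zero, zero_pow (by omega), mul_zero]
    have hqn : 0 < ‖q‖ := norm_pos_iff.mpr hq0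
    have hsub : closedBall (0 : ℂ) ‖q‖ ⊆ ball 0 ρ := by
      intro w hw
      rw [mem_closedBall_zero_iff] at hw
      rw [mem_ball_zero_iff] at hq ⊢
      linarith
    have hbd2 : ∀ w ∈ closedBall (0 : ℂ) ‖q‖, ‖dslope h 0 w‖ ≤ C * ‖q‖ ^ (k - 1) := by
      intro w hw
      by_cases hw0 : w = 0
      · -- limit argument
        subst hw0
        have hcont : ContinuousAt (dslope h 0) 0 :=
          (hds.differentiableAt hnhds).continuousAt
        have hten : Tendsto (fun w => ‖dslope h 0 w‖) (𝓝[≠] 0) (𝓝 ‖dslope h 0 0‖) :=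
          (hcont.norm).tendsto.mono_left nhdsWithin_le_nhds
        refine le_of_tendsto hten ?_
        have h3 : ∀ᶠ w : ℂ in 𝓝[≠] 0, w ∈ ball (0 : ℂ) ‖q‖ :=
          nhdsWithin_le_nhds (isOpen_ball.mem_nhds (mem_ball_self hqn))
        filter_upwards [h3, self_mem_nhdsWithin] with w hw hw1
        have hw2 : w ≠ 0 := hw1
        refine (hbd w (hsub (ball_subset_closedBall hw)) hw2).trans ?_
        have : ‖w‖ ≤ ‖q‖ := by
          rw [mem_ball_zero_iff] at hw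
          exact hw.le
        gcongr
      · refine (hbd w (hsub hw) hw0).trans ?_
        rw [mem_closedBall_zero_iff] at hw
        gcongr
    have hmv := (convex_closedBall (0 : ℂ) ‖q‖).norm_image_sub_le_of_norm_hasDerivWithin_le
      (f := H) (f' := fun q => (2 * Real.pi * Complex.I : ℂ)⁻¹ • dslope h 0 q)
      (C := C * ‖q‖ ^ (k - 1)) (x := 0) (y := q)
      (fun w hw => (hH w (hsub hw)).hasDerivWithinAt)
      (fun w hw => by
        rw [norm_smul]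
        calc ‖(2 * Real.pi * Complex.I : ℂ)⁻¹‖ * ‖dslope h 0 w‖
            ≤ 1 * (C * ‖q‖ ^ (k - 1)) := by
              gcongr
              exact hbd2 w hw
          _ = C * ‖q‖ ^ (k - 1) := one_mul _)
      (mem_closedBall_self (norm_nonneg q)) (by simp)
    rw [hH0, sub_zero, sub_zero] at hmv
    calc ‖H q‖ ≤ C * ‖q‖ ^ (k - 1) * ‖q‖ := hmv
      _ = C * (‖q‖ ^ (k - 1) * ‖q‖) := by ring
      _ = C * ‖q‖ ^ k := by rw [← pow_succ]; congr 2; omega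
  · intro q hq
    rw [smul_smul]
    have h1 := sub_smul_dslope_of_zero h0 q
    rw [sub_zero] at h1
    have h2 : (2 * Real.pi * Complex.I * q) * (2 * Real.pi * Complex.I)⁻¹ = q := by
      field_simp
    rw [h2, h1]

theorem exists_solve {ρ : ℝ} (hρ : 0 < ρ) {k : ℕ} (hk : 1 ≤ k) {N : E →L[ℂ] E} {K : ℕ}
    (hK : N ^ K = 0) {h : ℂ → E} (hh : Good ρ k h) :
    ∃ Φ Φ' : ℂ → E, Good ρ k Φ ∧ (∀ q ∈ ball (0 : ℂ) ρ, HasDerivAt Φ (Φ' q) q) ∧
      ∀ q ∈ ball (0 : ℂ) ρ, (2 * Real.pi * Complex.I * q) • Φ' q + N (Φ q) = h q := by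
  have key : ∀ j : ℕ, ∃ Φ Φ' R : ℂ → E, Good ρ k Φ ∧ Good ρ k R ∧
      (∀ q ∈ ball (0 : ℂ) ρ, HasDerivAt Φ (Φ' q) q) ∧
      ∀ q ∈ ball (0 : ℂ) ρ,
        (2 * Real.pi * Complex.I * q) • Φ' q + N (Φ q) = h q - ((-N) ^ j) (R q) := by
    intro j
    induction j with
    | zero =>
      refine ⟨fun _ => 0, fun _ => 0, h, Good.zero, hh, fun q _ => hasDerivAt_const _ _,
        fun q _ => ?_⟩
      simp
    | succ j ih =>
      obtain ⟨Φ, Φ', R, hΦ, hR, hd, heq⟩ := ih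
      obtain ⟨H, H', hH, hHd, hHe⟩ := exists_prim hρ hk hR
      refine ⟨fun q => Φ q + ((-N) ^ j) (H q), fun q => Φ' q + ((-N) ^ j) (H' q), H,
        hΦ.add (hH.clm _), hH, fun q hq => ?_, fun q hq => ?_⟩
      · exact (hd q hq).add (((-N) ^ j).hasFDerivAt.comp_hasDerivAt q (hHd q hq))
      · rw [smul_add, map_add, ← map_smul ((-N) ^ j), hHe q hq]
        have h1 := heq q hq
        have h2 : N (((-N) ^ j) (H q)) = -(((-N) ^ (j + 1)) (H q)) := by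
          rw [pow_succ']
          simp
        rw [h2]
        calc (2 * Real.pi * Complex.I * q) • Φ' q + ((-N) ^ j) (R q)
              + (N (Φ q) + -((-N) ^ (j + 1)) (H q))
            = ((2 * Real.pi * Complex.I * q) • Φ' q + N (Φ q)) + ((-N) ^ j) (R q)
              + -((-N) ^ (j + 1)) (H q) := by abel
          _ = h q - ((-N) ^ (j + 1)) (H q) := by rw [h1]; abel
  obtain ⟨Φ, Φ', R, hΦ, _, hd, heq⟩ := key K
  refine ⟨Φ, Φ', hΦ, hd, fun q hq => ?_⟩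
  rw [heq q hq, neg_pow, hK]
  simp

end Pool.Agent.Y92.RS
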