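import Pool.Agent.Y92.RS.PairDisc

/-!
# Tensor powers of a weight one Hodge structure given by a period matrix
-/

namespace Pool.Agent.Y92.RS

open Filter Asymptotics Finset Metric
open scoped Topology ComplexConjugate

/-- labels `e_1,…,e_g,f_1,…,f_g` of the standard basis of `ℚ^{2g}` -/
abbrev Lab (g : ℕ) : Type := Fin g ⊕ Fin g

/-- coordinates on `(ℂ^{2g})^{⊗ n}` in the basis of standard tensors -/
abbrev TVec (g n : ℕ) : Type := (Fin n → Lab g) → ℂ

/-- the vector `ω_j = e_j + Σ_b Z_{b j} f_b` of `ℂ^{2g}` -/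
def omega {g : ℕ} (Z : Matrix (Fin g) (Fin g) ℂ) (j : Fin g) : Lab g → ℂ :=
  Sum.elim (fun a => if a = j then 1 else 0) (fun b => Z b j)

/-- the decomposable tensor `ω_{J 0} ⊗ … ⊗ ω_{J (n-1)}` -/
def omegaT {g n : ℕ} (Z : Matrix (Fin g) (Fin g) ℂ) (J : Fin n → Fin g) : TVec g n :=
  fun I => ∏ t, omega Z (J t) (I t)

/-- the action of a matrix on `(ℂ^{2g})^{⊗ n}` -/
def tact {g n : ℕ} (M : Matrix (Lab g) (Lab g) ℂ) (v : TVec g n) : TVec g n :=
  fun I => ∑ I' : Fin n → Lab g, (∏ t, M (I t) (I' t)) * v I'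

/-- the unipotent matrix `e_a ↦ e_a + Σ_b N_{b a} f_b`, `f_b ↦ f_b` -/
def unip {g : ℕ} (N : Matrix (Fin g) (Fin g) ℚ) : Matrix (Lab g) (Lab g) ℂ :=
  Matrix.fromBlocks 1 0 (N.map (fun t : ℚ => (t : ℂ))) 1

theorem sum_cons {α β : Type*} [Fintype α] [AddCommMonoid β] {n : ℕ} (f : (Fin (n + 1) → α) → β) :
    ∑ I, f I = ∑ k, ∑ I' : Fin n → α, f (Fin.cons k I') := by
  rw [← (Fin.consEquiv (fun _ => α)).sum_comp f, Fintype.sum_prod_type]
  rfl

/-- the slice of a tensor: all indices but the first are `e`-labels -/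
def slice {g n : ℕ} (J : Fin n → Fin g) (v : TVec g (n + 1)) : Lab g → ℂ :=
  fun k => v (Fin.cons k (fun t => Sum.inl (J t)))

theorem unip_inl {g : ℕ} (N : Matrix (Fin g) (Fin g) ℚ) (a : Fin g) (k : Lab g) :
    unip N (Sum.inl a) k = if Sum.inl a = k then 1 else 0 := by
  rcases k with k | k
  · simp [unip, Matrix.one_apply]
  · simp [unip]

theorem slice_tact {g n : ℕ} (N : Matrix (Fin g) (Fin g) ℚ) (J : Fin n → Fin g)
    (v : TVec g (n + 1)) (k : Lab g) :
    slice J (tact (unip N) v) k = ∑ k', unip N k k' * slice J v k' := by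
  unfold slice tact
  rw [sum_cons]
  refine Finset.sum_congr rfl fun k' _ => ?_
  have h1 : ∀ I' : Fin n → Lab g,
      (∏ t, unip N ((Fin.cons k (fun t => Sum.inl (J t)) : Fin (n + 1) → Lab g) t)
        ((Fin.cons k' I' : Fin (n + 1) → Lab g) t)) * v (Fin.cons k' I')
      = if (fun t => Sum.inl (J t)) = I' then unip N k k' * v (Fin.cons k' I') else 0 := by
    intro I'
    rw [Fin.prod_univ_succ]
    simp only [Fin.cons_zero, Fin.cons_succ, unip_inl]
    rw [Finset.prod_ite_zero]
    by_cases h : (fun t => (Sum.inl (J t) : Lab g)) = I'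
    · rw [if_pos h, if_pos (fun t _ => congrFun h t)]
      simp
    · rw [if_neg h, if_neg (fun h' => h (funext fun t => h' t (Finset.mem_univ t)))]
      simp
  rw [Finset.sum_congr rfl (fun I' _ => h1 I')]
  rw [Finset.sum_ite_eq]
  simp

theorem slice_tact_eq {g n : ℕ} (N : Matrix (Fin g) (Fin g) ℚ) (J : Fin n → Fin g)
    (v : TVec g (n + 1)) (k : Lab g) :
    slice J (tact (unip N) v) k =
      slice J v k + nilOp (N.map (fun t : ℚ => (t : ℝ))) (slice J v) k := by
  rw [slice_tact]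
  rcases k with k | k
  · rw [nilOp_inl, add_zero]
    simp only [unip_inl]
    simp
  · rw [nilOp_inr, Fintype.sum_sum_type]
    simp only [unip, Matrix.fromBlocks_apply₂₁, Matrix.fromBlocks_apply₂₂, Matrix.map_apply,
      Matrix.one_apply]
    rw [add_comm]
    congr 1
    simp

theorem slice_omegaT {g n : ℕ} (Z : Matrix (Fin g) (Fin g) ℂ) (J : Fin n → Fin g)
    (J' : Fin (n + 1) → Fin g) (k : Lab g) :
    slice J (omegaT Z J') k = if J = (fun t => J' (Fin.succ t)) then omega Z (J' 0) k else 0 := by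
  unfold slice omegaT
  rw [Fin.prod_univ_succ]
  simp only [Fin.cons_zero, Fin.cons_succ]
  have h1 : ∀ t, omega Z (J' (Fin.succ t)) (Sum.inl (J t)) = if J t = J' (Fin.succ t) then 1 else 0 :=
    fun t => rfl
  simp only [h1]
  rw [Finset.prod_ite_zero]
  by_cases h : J = (fun t => J' (Fin.succ t))
  · rw [if_pos h, if_pos (fun t _ => congrFun h t)]
    simp
  · rw [if_neg h, if_neg (fun h' => h (funext fun t => h' t (Finset.mem_univ t)))]
    simp

theorem slice_sum_omegaT {g n : ℕ} (Z : Matrix (Fin g) (Fin g) ℂ) (J : Fin n → Fin g)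
    (φ : (Fin (n + 1) → Fin g) → ℂ) :
    slice J (∑ J', φ J' • omegaT Z J') =
      Sum.elim (fun a => φ (Fin.cons a J)) (fun b => ∑ a, Z b a * φ (Fin.cons a J)) := by
  have h0 : ∀ k, slice J (∑ J', φ J' • omegaT Z J') k = ∑ a, φ (Fin.cons a J) * omega Z a k := by
    intro k
    have h1 : slice J (∑ J', φ J' • omegaT Z J') k = ∑ J', φ J' * slice J (omegaT Z J') k := by
      unfold slice
      rw [Finset.sum_apply]
      rfl
    rw [h1, sum_cons]
    refine Finset.sum_congr rfl fun a _ => ?_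
    have h2 : ∀ I' : Fin n → Fin g, φ (Fin.cons a I') * slice J (omegaT Z (Fin.cons a I')) k
        = if J = I' then φ (Fin.cons a I') * omega Z a k else 0 := by
      intro I'
      rw [slice_omegaT]
      simp only [Fin.cons_succ, Fin.cons_zero]
      split_ifs <;> simp
    rw [Finset.sum_congr rfl (fun I' _ => h2 I'), Finset.sum_ite_eq]
    simp
  ext k
  rw [h0]
  rcases k with k | k
  · simp [omega]
  · simp only [omega, Sum.elim_inr]
    exact Finset.sum_congr rfl fun a _ => mul_comm _ _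

/-- taking a slice is continuous and linear -/
noncomputable def sliceL {g n : ℕ} (J : Fin n → Fin g) : TVec g (n + 1) →L[ℂ] (Lab g → ℂ) :=
  LinearMap.toContinuousLinearMap
    { toFun := slice J
      map_add' := fun _ _ => rfl
      map_smul' := fun _ _ => rfl }

theorem sliceL_apply {g n : ℕ} (J : Fin n → Fin g) (v : TVec g (n + 1)) :
    sliceL J v = slice J v := rfl

end Pool.Agent.Y92.RS
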